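import Mathlib

set_option autoImplicit false

/-!
# Estimates for binomial coefficients
-/

namespace Pool.Agent.Q6.KV

open Finset

/-- `d ^ 2 * C(x, r) ≤ C(d x, r)` for `r ≥ 2` -/
theorem choose_dil (d x r : ℕ) (hr : 2 ≤ r) : d ^ 2 * x.choose r ≤ (d * x).choose r := by
  rcases Nat.eq_zero_or_pos d with rfl | hd
  · simp
  have hxx : x ≤ d * x := Nat.le_mul_of_pos_left x hd
  have h1 := Nat.choose_mul (n := x) (k := r) (s := 2) hr
  have h2 := Nat.choose_mul (n := d * x) (k := r) (s := 2) hr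
  have h3 : (x - 2).choose (r - 2) ≤ (d * x - 2).choose (r - 2) :=
    Nat.choose_le_choose _ (by omega)
  have h4 : d ^ 2 * x.choose 2 ≤ (d * x).choose 2 := by
    rw [Nat.choose_two_right, Nat.choose_two_right]
    have h5 : d ^ 2 * (x * (x - 1)) ≤ d * x * (d * x - 1) := by
      rcases Nat.eq_zero_or_pos x with rfl | hx
      · simp
      obtain ⟨y, rfl⟩ : ∃ y, x = y + 1 := ⟨x - 1, by omega⟩
      have h6 : d * y ≤ d * (y + 1) - 1 := by
        rw [mul_add, mul_one]
        omega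
      calc d ^ 2 * ((y + 1) * (y + 1 - 1)) = d * (y + 1) * (d * y) := by
            rw [Nat.add_sub_cancel]; ring
        _ ≤ d * (y + 1) * (d * (y + 1) - 1) := Nat.mul_le_mul_left _ h6
    have h7 : 2 ∣ x * (x - 1) := (Nat.even_mul_pred_self x).two_dvd
    have h8 : 2 ∣ d * x * (d * x - 1) := (Nat.even_mul_pred_self (d * x)).two_dvd
    obtain ⟨u, hu⟩ := h7
    obtain ⟨v, hv⟩ := h8
    rw [hu, hv] at h5
    rw [hu, hv, Nat.mul_div_cancel_left _ (by norm_num), Nat.mul_div_cancel_left _ (by norm_num)]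
    nlinarith
  have hpos : 0 < r.choose 2 := Nat.choose_pos hr
  refine Nat.le_of_mul_le_mul_right ?_ hpos
  calc d ^ 2 * x.choose r * r.choose 2 = d ^ 2 * x.choose 2 * (x - 2).choose (r - 2) := by
        rw [mul_assoc, h1, mul_assoc]
    _ ≤ (d * x).choose 2 * (d * x - 2).choose (r - 2) := Nat.mul_le_mul h4 h3
    _ = (d * x).choose r * r.choose 2 := h2.symm

/-- the sum of an initial segment of a row of the triangle is at most twice its last term -/
theorem sum_choose_le (y c : ℕ) (h : 3 * c ≤ y + 1) :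
    ∑ i ∈ range (c + 1), y.choose i ≤ 2 * y.choose c := by
  induction c with
  | zero => simp
  | succ c ih =>
    rw [sum_range_succ]
    have h1 := ih (by omega)
    have h2 : 2 * y.choose c ≤ y.choose (c + 1) := by
      have h3 := Nat.choose_succ_right_eq y c
      refine Nat.le_of_mul_le_mul_right ?_ (Nat.succ_pos c)
      calc 2 * y.choose c * (c + 1) = y.choose c * (2 * (c + 1)) := by ring
        _ ≤ y.choose c * (y - c) := Nat.mul_le_mul_left _ (by omega)
        _ = y.choose (c + 1) * (c + 1) := h3.symm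
    omega

theorem diag_step (q y c : ℕ) (h : q * (c + 1) ≤ y + 1) :
    q * y.choose c ≤ (y + 1).choose (c + 1) := by
  have h1 := Nat.add_one_mul_choose_eq y c
  refine Nat.le_of_mul_le_mul_right ?_ (Nat.succ_pos c)
  calc q * y.choose c * (c + 1) = y.choose c * (q * (c + 1)) := by ring
    _ ≤ y.choose c * (y + 1) := Nat.mul_le_mul_left _ h
    _ = (y + 1).choose (c + 1) * (c + 1) := by rw [mul_comm, h1]

theorem diag_pow (q y c : ℕ) : ∀ j : ℕ, q * (c + j) ≤ y + j → c ≤ y →
    q ^ j * y.choose c ≤ (y + j).choose (c + j) ∨ q = 0 := by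
  intro j
  induction j with
  | zero => intro _ _; left; simp
  | succ j ih =>
    intro h hcy
    rcases Nat.eq_zero_or_pos q with hq | hq
    · exact Or.inr hq
    left
    have h0 : q * (c + j) ≤ y + j := by
      have : q * (c + (j + 1)) = q * (c + j) + q := by ring
      omega
    rcases ih h0 hcy with h1 | h1
    · have h2 := diag_step q (y + j) (c + j) (by
        have : q * (c + (j + 1)) = q * (c + j + 1) := by ring
        omega)
      calc q ^ (j + 1) * y.choose c = q * (q ^ j * y.choose c) := by ring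
        _ ≤ q * (y + j).choose (c + j) := Nat.mul_le_mul_left _ h1
        _ ≤ (y + j + 1).choose (c + j + 1) := h2
    · omega

/-- the diagonal estimate -/
theorem diag_big (a y c : ℕ) (ha : 1 ≤ a) (hy : 3 * a + 1 ≤ y) (hc : c + 1 ≤ a) :
    12 * a ^ 2 * y.choose c ≤ (y + 2 * a).choose (c + 2 * a) := by
  rcases (by omega : a = 1 ∨ a = 2 ∨ 3 ≤ a) with rfl | rfl | h3
  · obtain rfl : c = 0 := by omega
    have h1 := diag_step 5 y 0 (by omega)
    have h2 := diag_step 3 (y + 1) 1 (by omega)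
    calc 12 * 1 ^ 2 * y.choose 0 ≤ 3 * (5 * y.choose 0) := by simp
      _ ≤ 3 * (y + 1).choose (0 + 1) := Nat.mul_le_mul_left _ h1
      _ ≤ (y + 1 + 1).choose (1 + 1) := h2
      _ = (y + 2 * 1).choose (0 + 2 * 1) := rfl
  · have h1 := diag_step 4 y c (by omega)
    have h2 := diag_step 3 (y + 1) (c + 1) (by omega)
    have h3 := diag_step 2 (y + 2) (c + 2) (by omega)
    have h4 := diag_step 2 (y + 3) (c + 3) (by omega)
    calc 12 * 2 ^ 2 * y.choose c = 2 * (2 * (3 * (4 * y.choose c))) := by ring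
      _ ≤ 2 * (2 * (3 * (y + 1).choose (c + 1))) := by gcongr
      _ ≤ 2 * (2 * (y + 2).choose (c + 2)) := by gcongr
      _ ≤ 2 * (y + 3).choose (c + 3) := by gcongr
      _ ≤ (y + 4).choose (c + 4) := h4
      _ = (y + 2 * 2).choose (c + 2 * 2) := rfl
  · have h1 := diag_step 3 y c (by omega)
    have h2 := diag_step 3 (y + 1) (c + 1) (by omega)
    have h4 := diag_pow 2 (y + 2) (c + 2) (a + 1) (by omega) (by omega)
    have h5 := diag_pow 1 (y + 2 + (a + 1)) (c + 2 + (a + 1)) (a - 3) (by omega) (by omega)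
    have h6 : 12 * a ^ 2 ≤ 9 * 2 ^ (a + 1) := by
      have : ∀ b : ℕ, 12 * (b + 3) ^ 2 ≤ 9 * 2 ^ (b + 3 + 1) := by
        intro b
        induction b with
        | zero => norm_num
        | succ b ih =>
          have h7 : 9 * 2 ^ (b + 1 + 3 + 1) = 2 * (9 * 2 ^ (b + 3 + 1)) := by ring
          rw [h7]
          calc 12 * (b + 1 + 3) ^ 2 ≤ 12 * ((b + 1 + 3) ^ 2 + (b ^ 2 + 4 * b + 2)) :=
                Nat.mul_le_mul_left _ (Nat.le_add_right _ _)
            _ = 2 * (12 * (b + 3) ^ 2) := by ring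
            _ ≤ 2 * (9 * 2 ^ (b + 3 + 1)) := Nat.mul_le_mul_left _ ih
      have := this (a - 3)
      rwa [Nat.sub_add_cancel h3] at this
    have h7 : 2 ^ (a + 1) * (y + 2).choose (c + 2) ≤ (y + 2 + (a + 1)).choose (c + 2 + (a + 1)) := by
      rcases h4 with h4 | h4
      · exact h4
      · omega
    have h8 : (y + 2 + (a + 1)).choose (c + 2 + (a + 1)) ≤
        (y + 2 + (a + 1) + (a - 3)).choose (c + 2 + (a + 1) + (a - 3)) := by
      rcases h5 with h5 | h5
      · simpa using h5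
      · omega
    have h9 : (y + 2 + (a + 1) + (a - 3)).choose (c + 2 + (a + 1) + (a - 3)) =
        (y + 2 * a).choose (c + 2 * a) := by
      congr 1 <;> omega
    calc 12 * a ^ 2 * y.choose c ≤ 9 * 2 ^ (a + 1) * y.choose c := Nat.mul_le_mul_right _ h6
      _ = 2 ^ (a + 1) * (3 * (3 * y.choose c)) := by ring
      _ ≤ 2 ^ (a + 1) * (3 * (y + 1).choose (c + 1)) := by gcongr
      _ ≤ 2 ^ (a + 1) * (y + 2).choose (c + 2) := by gcongr
      _ ≤ (y + 2 * a).choose (c + 2 * a) := by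
        rw [← h9]
        exact h7.trans h8

/-- the estimate for `τ + 1` pairs in the quotient -/
theorem base_bound (a τ c : ℕ) (ha : 1 ≤ a) (hτ : 1 ≤ τ) (hc : c + 1 ≤ a) :
    2 * a * (a + 1) * (τ + 1) * ∑ i ∈ range (c + 1), ((2 * a + 1) * τ + a).choose i ≤
      ((2 * a + 1) * τ + a + 2 * a).choose (c + 2 * a + 1) := by
  set y := (2 * a + 1) * τ + a with hy
  have hy1 : 3 * a + 1 ≤ y := by
    have : 2 * a + 1 ≤ (2 * a + 1) * τ := Nat.le_mul_of_pos_right _ hτ
    omega
  have h1 := sum_choose_le y c (by omega)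
  have h2 := diag_big a y c ha hy1 hc
  have h3 := Nat.choose_succ_right_eq (y + 2 * a) (c + 2 * a)
  have h4 : y + 2 * a - (c + 2 * a) = y - c := by omega
  rw [h4] at h3
  have h5 : (c + 2 * a + 1) * (4 * a * (a + 1) * (τ + 1)) ≤ 12 * a ^ 2 * (y - c) := by
    have h6 : (a + 1) * (τ + 1) ≤ y - c := by
      have h7 : (a + 1) * (τ + 1) + c ≤ y := by
        have h8 : a ≤ a * τ := Nat.le_mul_of_pos_right _ hτ
        rw [hy]
        nlinarith
      omega
    calc (c + 2 * a + 1) * (4 * a * (a + 1) * (τ + 1)) ≤ (3 * a) * (4 * a * (a + 1) * (τ + 1)) :=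
          Nat.mul_le_mul_right _ (by omega)
      _ = 12 * a ^ 2 * ((a + 1) * (τ + 1)) := by ring
      _ ≤ 12 * a ^ 2 * (y - c) := Nat.mul_le_mul_left _ h6
  have hpos : 0 < c + 2 * a + 1 := by omega
  refine Nat.le_of_mul_le_mul_right ?_ hpos
  calc 2 * a * (a + 1) * (τ + 1) * (∑ i ∈ range (c + 1), y.choose i) * (c + 2 * a + 1)
      ≤ 2 * a * (a + 1) * (τ + 1) * (2 * y.choose c) * (c + 2 * a + 1) := by gcongr
    _ = (c + 2 * a + 1) * (4 * a * (a + 1) * (τ + 1)) * y.choose c := by ring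
    _ ≤ 12 * a ^ 2 * (y - c) * y.choose c := Nat.mul_le_mul_right _ h5
    _ = 12 * a ^ 2 * y.choose c * (y - c) := by ring
    _ ≤ (y + 2 * a).choose (c + 2 * a) * (y - c) := Nat.mul_le_mul_right _ h2
    _ = (y + 2 * a).choose (c + 2 * a + 1) * (c + 2 * a + 1) := h3.symm

/-- **The main estimate.** `h = 2 a + 1`, `n` pairs in the quotient. -/
theorem main_bound (a τ t n : ℕ) (ha : 1 ≤ a) (hτ : 1 ≤ τ) (hn : τ + 1 ≤ n)
    (ht1 : (2 * a + 1) * τ + 1 ≤ t) (ht2 : t ≤ (2 * a + 1) * τ + a) :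
    2 * a * (a + 1) * (n.choose τ *
      ∑ i ∈ range ((2 * a + 1) * τ + a - t + 1), ((2 * a + 1) * τ + a).choose i) ≤
      ((2 * a + 1) * n + a - 1).choose (t - 1) := by
  obtain ⟨j, rfl⟩ : ∃ j, n = τ + 1 + j := ⟨n - (τ + 1), by omega⟩
  clear hn
  induction j with
  | zero =>
    have h1 := base_bound a τ ((2 * a + 1) * τ + a - t) ha hτ (by omega)
    have h2 : (τ + 1 + 0).choose τ = τ + 1 := by
      rw [add_zero, Nat.choose_succ_self_right]
    rw [h2]
    have h3 : (2 * a + 1) * (τ + 1 + 0) + a - 1 = (2 * a + 1) * τ + a + 2 * a := by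
      have : (2 * a + 1) * (τ + 1 + 0) = (2 * a + 1) * τ + (2 * a + 1) := by ring
      omega
    have h4 : t - 1 = ((2 * a + 1) * τ + a + 2 * a) - (((2 * a + 1) * τ + a - t) + 2 * a + 1) := by
      omega
    rw [h3, h4, Nat.choose_symm (by omega)]
    calc _ = 2 * a * (a + 1) * (τ + 1) *
        ∑ i ∈ range ((2 * a + 1) * τ + a - t + 1), ((2 * a + 1) * τ + a).choose i := by ring
      _ ≤ _ := h1
  | succ j ih =>
    set x := τ + 1 + j with hx
    have hx' : τ + 1 + (j + 1) = x + 1 := by omega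
    rw [hx']
    set SS := ∑ i ∈ range ((2 * a + 1) * τ + a - t + 1), ((2 * a + 1) * τ + a).choose i with hS
    set y := (2 * a + 1) * x + a - 1 with hy
    have hy' : y + 1 = (2 * a + 1) * x + a := by omega
    have h1 : (y + 1).choose (t - 1) ≤ ((2 * a + 1) * (x + 1) + a - 1).choose (t - 1) := by
      refine Nat.choose_le_choose _ ?_
      have : (2 * a + 1) * (x + 1) = (2 * a + 1) * x + (2 * a + 1) := by ring
      omega
    refine le_trans ?_ h1
    have h2 := Nat.choose_mul_succ_eq y (t - 1)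
    have h3 := Nat.choose_mul_succ_eq x τ
    have hle : (2 * a + 1) * τ + (2 * a + 1) ≤ (2 * a + 1) * x := by
      calc (2 * a + 1) * τ + (2 * a + 1) = (2 * a + 1) * (τ + 1) := by ring
        _ ≤ (2 * a + 1) * x := Nat.mul_le_mul_left _ (by omega)
    have hp1 : 0 < x + 1 - τ := by omega
    have hp2 : 0 < y + 1 - (t - 1) := by omega
    have h4 : (x + 1) * (y + 1 - (t - 1)) ≤ (y + 1) * (x + 1 - τ) := by
      zify [show τ ≤ x + 1 by omega, show t - 1 ≤ y + 1 by omega, show 1 ≤ t by omega]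
      have e1 : ((y : ℤ) + 1) = (2 * a + 1) * x + a := by exact_mod_cast hy'
      have e2 : ((2 * a + 1) * τ + 1 : ℤ) ≤ t := by exact_mod_cast ht1
      have e3 : (0 : ℤ) ≤ τ * (a + 1) := by positivity
      rw [e1]
      have e4 : (0 : ℤ) ≤ (x + 1) * ((t : ℤ) - 1 - (2 * a + 1) * τ) := by
        apply mul_nonneg
        · positivity
        · linarith
      nlinarith
    refine Nat.le_of_mul_le_mul_right ?_ (Nat.mul_pos hp1 hp2)
    calc 2 * a * (a + 1) * ((x + 1).choose τ * SS) * ((x + 1 - τ) * (y + 1 - (t - 1)))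
        = 2 * a * (a + 1) * SS * ((x + 1).choose τ * (x + 1 - τ)) * (y + 1 - (t - 1)) := by ring
      _ = 2 * a * (a + 1) * SS * (x.choose τ * (x + 1)) * (y + 1 - (t - 1)) := by rw [h3]
      _ = 2 * a * (a + 1) * (x.choose τ * SS) * ((x + 1) * (y + 1 - (t - 1))) := by ring
      _ ≤ y.choose (t - 1) * ((x + 1) * (y + 1 - (t - 1))) := Nat.mul_le_mul_right _ ih
      _ ≤ y.choose (t - 1) * ((y + 1) * (x + 1 - τ)) := Nat.mul_le_mul_left _ h4
      _ = y.choose (t - 1) * (y + 1) * (x + 1 - τ) := by ring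
      _ = (y + 1).choose (t - 1) * (y + 1 - (t - 1)) * (x + 1 - τ) := by rw [h2]
      _ = (y + 1).choose (t - 1) * ((x + 1 - τ) * (y + 1 - (t - 1))) := by ring

/-- telescoping -/
theorem tele (s : Finset ℕ) (hs : ∀ a ∈ s, 1 ≤ a) :
    ∑ a ∈ s, (1 : ℚ) / (a * (a + 1)) < 1 := by
  obtain ⟨N, hN⟩ : ∃ N, ∀ a ∈ s, a ≤ N := ⟨s.sup id, fun a ha => Finset.le_sup (f := id) ha⟩
  have h1 : ∀ N : ℕ, ∑ a ∈ Icc 1 N, (1 : ℚ) / (a * (a + 1)) = 1 - 1 / (N + 1) := by
    intro N
    induction N with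
    | zero => simp
    | succ N ih =>
      rw [Finset.sum_Icc_succ_top (by omega), ih]
      push_cast
      field_simp
      ring
  have h2 : ∑ a ∈ s, (1 : ℚ) / (a * (a + 1)) ≤ ∑ a ∈ Icc 1 N, (1 : ℚ) / (a * (a + 1)) := by
    refine Finset.sum_le_sum_of_subset_of_nonneg ?_ ?_
    · intro a ha
      rw [mem_Icc]
      exact ⟨hs a ha, hN a ha⟩
    · intro a _ _
      positivity
  rw [h1] at h2
  have h3 : (0 : ℚ) < 1 / (N + 1) := by positivity
  linarith

/-- partial alternating sums of binomial coefficients over subsets of a set -/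
theorem alt_sum {α : Type} [DecidableEq α] (s : Finset α) (t : ℕ) (ht : 1 ≤ t) (hs : s.Nonempty) :
    ∑ I ∈ s.powerset.filter (fun I => t ≤ I.card), (-1 : ℤ) ^ I.card =
      (-1) ^ t * ((s.card - 1).choose (t - 1) : ℤ) := by
  have h0 : ∑ I ∈ s.powerset, (-1 : ℤ) ^ I.card = 0 := by
    rw [Finset.sum_powerset_neg_one_pow_card, if_neg hs.ne_empty]
  rw [← Finset.sum_filter_add_sum_filter_not _ (fun I => t ≤ I.card)] at h0
  have h1 : ∑ I ∈ s.powerset.filter (fun I => ¬ t ≤ I.card), (-1 : ℤ) ^ I.card =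
      ∑ i ∈ range t, (-1 : ℤ) ^ i * (s.card.choose i : ℤ) := by
    have h2 : s.powerset.filter (fun I => ¬ t ≤ I.card) =
        (range t).biUnion (fun i => s.powersetCard i) := by
      ext I
      simp only [mem_filter, mem_powerset, mem_biUnion, mem_range, mem_powersetCard, not_le]
      constructor
      · rintro ⟨h, h'⟩
        exact ⟨_, h', h, rfl⟩
      · rintro ⟨i, hi, h, h'⟩
        exact ⟨h, by rw [h']; exact hi⟩
    rw [h2, Finset.sum_biUnion]
    · refine Finset.sum_congr rfl fun i _ => ?_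
      rw [Finset.sum_congr rfl (g := fun _ => (-1 : ℤ) ^ i)]
      · rw [Finset.sum_const, card_powersetCard, nsmul_eq_mul, mul_comm]
      · intro I hI
        rw [(mem_powersetCard.1 hI).2]
    · intro i _ j _ hij
      exact Finset.pairwise_disjoint_powersetCard s hij
  have h3 : ∑ i ∈ range t, (-1 : ℤ) ^ i * (s.card.choose i : ℤ) =
      (-1) ^ (t - 1) * ((s.card - 1).choose (t - 1) : ℤ) := by
    obtain ⟨m, hm⟩ : ∃ m, s.card = m + 1 := ⟨s.card - 1, by
      have := hs.card_pos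
      omega⟩
    obtain ⟨r, rfl⟩ : ∃ r, t = r + 1 := ⟨t - 1, by omega⟩
    rw [hm, Nat.add_sub_cancel, Nat.add_sub_cancel]
    exact Int.alternating_sum_range_choose_eq_choose
  rw [h1, h3] at h0
  obtain ⟨r, rfl⟩ : ∃ r, t = r + 1 := ⟨t - 1, by omega⟩
  rw [Nat.add_sub_cancel] at h0 ⊢
  rw [pow_succ]
  linarith

/-- the number of large subsets -/
theorem card_large {α : Type} [DecidableEq α] (s : Finset α) (t ℓ : ℕ) (hs : s.card ≤ ℓ)
    (ht : t ≤ ℓ) :
    (s.powerset.filter (fun I => t ≤ I.card)).card ≤ ∑ i ∈ range (ℓ - t + 1), ℓ.choose i := by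
  have h2 : s.powerset.filter (fun I => t ≤ I.card) ⊆
      (Icc t ℓ).biUnion (fun i => s.powersetCard i) := by
    intro I
    simp only [mem_filter, mem_powerset, mem_biUnion, mem_Icc, mem_powersetCard]
    rintro ⟨h, h'⟩
    exact ⟨_, ⟨h', (card_le_card h).trans hs⟩, h, rfl⟩
  refine (card_le_card h2).trans (card_biUnion_le.trans ?_)
  have h3 : ∑ i ∈ Icc t ℓ, (s.powersetCard i).card ≤ ∑ i ∈ Icc t ℓ, ℓ.choose i := by
    refine Finset.sum_le_sum fun i _ => ?_
    rw [card_powersetCard]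
    exact Nat.choose_le_choose _ hs
  refine h3.trans (le_of_eq ?_)
  refine Finset.sum_bij' (fun i _ => ℓ - i) (fun i _ => ℓ - i) ?_ ?_ ?_ ?_ ?_
  · intro i hi
    rw [mem_Icc] at hi
    rw [mem_range]
    omega
  · intro i hi
    rw [mem_range] at hi
    rw [mem_Icc]
    omega
  · intro i hi
    rw [mem_Icc] at hi
    omega
  · intro i hi
    rw [mem_range] at hi
    omega
  · intro i hi
    rw [mem_Icc] at hi
    exact (Nat.choose_symm hi.2).symm

end Pool.Agent.Q6.KV
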