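import Mathlib
import Pool.Agent.W332.Kd.Cay

set_option autoImplicit false
set_option linter.unusedSectionVars false

/-!
# Atoms of Cayley graphs of finite abelian groups; vertex connectivity
-/

namespace Pool.Agent.Q6.KV

open Finset
open Pool.Agent.W332.Kd (cay Sy cay_adj)

/-- `k`-connectivity -/
def VC {V : Type} (k : ℕ) (G : SimpleGraph V) : Prop :=
  k < Nat.card V ∧ ∀ X : Set V, X.ncard < k → (G.induce Xᶜ).Connected

theorem VC.iso {V W : Type} {G : SimpleGraph V} {G' : SimpleGraph W} (φ : G ≃g G') {k : ℕ}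
    (h : VC k G) : VC k G' := by
  refine ⟨by rw [← Nat.card_congr φ.toEquiv]; exact h.1, fun X hX => ?_⟩
  have h1 : (φ ⁻¹' X).ncard < k := by
    have : (φ ⁻¹' X).ncard = X.ncard := by
      rw [show (φ ⁻¹' X) = φ.toEquiv.symm '' X from (φ.toEquiv.symm.image_eq_preimage_symm X).symm]
      exact Set.ncard_image_of_injective _ φ.toEquiv.symm.injective
    rw [this]
    exact hX
  have h2 := h.2 _ h1
  have e : (G.induce (φ ⁻¹' X)ᶜ) ≃g (G'.induce Xᶜ) :=
    { toEquiv := φ.toEquiv.subtypeEquiv (fun a => Iff.rfl)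
      map_rel_iff' := by
        intro a b
        exact φ.map_rel_iff }
  exact e.connected_iff.1 h2

section

variable {A : Type} [AddCommGroup A] [Fintype A] [DecidableEq A]

/-- closed neighbourhood -/
def cl (S : Finset A) (C : Finset A) : Finset A :=
  univ.filter fun x => ∃ c ∈ C, x = c ∨ x - c ∈ S

theorem mem_cl {S C : Finset A} {x : A} : x ∈ cl S C ↔ ∃ c ∈ C, x = c ∨ x - c ∈ S := by
  simp [cl]

theorem sub_cl (S C : Finset A) : C ⊆ cl S C := fun x hx => mem_cl.2 ⟨x, hx, Or.inl rfl⟩

theorem cl_mono {S C D : Finset A} (h : C ⊆ D) : cl S C ⊆ cl S D := by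
  intro x hx
  obtain ⟨c, hc, h'⟩ := mem_cl.1 hx
  exact mem_cl.2 ⟨c, h hc, h'⟩

theorem cl_union (S C D : Finset A) : cl S (C ∪ D) = cl S C ∪ cl S D := by
  ext x
  rw [mem_union, mem_cl, mem_cl, mem_cl]
  constructor
  · rintro ⟨c, hc, h⟩
    rcases mem_union.1 hc with hc | hc
    · exact Or.inl ⟨c, hc, h⟩
    · exact Or.inr ⟨c, hc, h⟩
  · rintro (⟨c, hc, h⟩ | ⟨c, hc, h⟩)
    · exact ⟨c, mem_union_left _ hc, h⟩
    · exact ⟨c, mem_union_right _ hc, h⟩

theorem submod (S C D : Finset A) :
    (cl S (C ∪ D)).card + (cl S (C ∩ D)).card ≤ (cl S C).card + (cl S D).card := by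
  rw [cl_union, ← card_union_add_card_inter (cl S C) (cl S D)]
  refine Nat.add_le_add_left (card_le_card ?_) _
  exact subset_inter (cl_mono inter_subset_left) (cl_mono inter_subset_right)

/-- translate -/
def tr (x : A) (C : Finset A) : Finset A := univ.filter fun y => y - x ∈ C

theorem mem_tr {x y : A} {C : Finset A} : y ∈ tr x C ↔ y - x ∈ C := by
  simp [tr]

theorem card_tr (x : A) (C : Finset A) : (tr x C).card = C.card := by
  have : tr x C = C.map (Equiv.addRight x).toEmbedding := by
    ext y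
    rw [mem_tr, mem_map]
    constructor
    · intro h
      exact ⟨y - x, h, by simp⟩
    · rintro ⟨z, hz, rfl⟩
      simpa using hz
  rw [this, card_map]

theorem cl_tr (S : Finset A) (x : A) (C : Finset A) : cl S (tr x C) = tr x (cl S C) := by
  ext y
  rw [mem_tr, mem_cl, mem_cl]
  constructor
  · rintro ⟨c, hc, h⟩
    refine ⟨c - x, mem_tr.1 hc, ?_⟩
    rcases h with rfl | h
    · exact Or.inl rfl
    · right
      rwa [sub_sub_sub_cancel_right]
  · rintro ⟨c, hc, h⟩
    refine ⟨c + x, mem_tr.2 (by rwa [add_sub_cancel_right]), ?_⟩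
    rcases h with h | h
    · left
      rw [← h]
      abel
    · right
      rwa [show y - (c + x) = y - x - c by abel]

/-- the subgroup as a finite set -/
noncomputable def hf (H : AddSubgroup A) : Finset A := by
  classical
  exact univ.filter fun x => x ∈ H

theorem mem_hf {H : AddSubgroup A} {x : A} : x ∈ hf H ↔ x ∈ H := by
  simp [hf]

/-- **Atoms are subgroups.** -/
theorem atom (S : Finset A) (hS : Sy S) (k : ℕ) (C0 : Finset A) (h0 : C0.Nonempty)
    (h1 : cl S C0 ≠ univ) (h2 : (cl S C0).card < C0.card + k) :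
    ∃ H : AddSubgroup A, cl S (hf H) ≠ univ ∧ (cl S (hf H)).card < (hf H).card + k := by
  classical
  set bd : Finset A → ℕ := fun C => (cl S C).card - C.card with hbd
  have hbd' : ∀ C, (cl S C).card = C.card + bd C := fun C => by
    have := card_le_card (sub_cl S C)
    simp only [hbd]
    omega
  set 𝓕 : Finset (Finset A) := univ.filter fun C => C.Nonempty ∧ cl S C ≠ univ with hF
  have hmem : ∀ C, C ∈ 𝓕 ↔ C.Nonempty ∧ cl S C ≠ univ := fun C => by simp [hF]
  have hne : 𝓕.Nonempty := ⟨C0, (hmem _).2 ⟨h0, h1⟩⟩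
  obtain ⟨B, hB, hBmin⟩ := Finset.exists_min_image 𝓕 bd hne
  set 𝓖 := 𝓕.filter fun C => bd C = bd B with hG
  have hne2 : 𝓖.Nonempty := ⟨B, by rw [hG, mem_filter]; exact ⟨hB, rfl⟩⟩
  obtain ⟨C, hC, hCmin⟩ := Finset.exists_min_image 𝓖 card hne2
  rw [hG, mem_filter] at hC
  obtain ⟨hCF, hCbd⟩ := hC
  have hκ : ∀ D ∈ 𝓕, bd C ≤ bd D := fun D hD => hCbd ▸ hBmin D hD
  have hsm : ∀ D ∈ 𝓕, bd D = bd C → C.card ≤ D.card := fun D hD h =>
    hCmin D (by rw [hG, mem_filter]; exact ⟨hD, h.trans hCbd⟩)
  obtain ⟨hCne, hCcl⟩ := (hmem C).1 hCF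
  -- the complement
  have hcomp : C.card ≤ (univ \ cl S C).card := by
    set C' := univ \ cl S C with hC'
    have hCne' : C'.Nonempty := by
      rw [hC', nonempty_iff_ne_empty]
      intro h
      exact hCcl (univ_subset_iff.1 (sdiff_eq_empty_iff_subset.1 h))
    have hcl' : cl S C' ⊆ univ \ C := by
      intro x hx
      rw [mem_sdiff]
      refine ⟨mem_univ _, fun hxC => ?_⟩
      obtain ⟨c, hc, h⟩ := mem_cl.1 hx
      rw [hC', mem_sdiff] at hc
      apply hc.2
      rw [mem_cl]
      refine ⟨x, hxC, ?_⟩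
      rcases h with rfl | h
      · exact Or.inl rfl
      · right
        have := hS.neg _ h
        rwa [neg_sub] at this
    have hF' : C' ∈ 𝓕 := by
      rw [hmem]
      refine ⟨hCne', fun h => ?_⟩
      obtain ⟨c, hc⟩ := hCne
      have : c ∈ cl S C' := by rw [h]; exact mem_univ _
      exact (mem_sdiff.1 (hcl' this)).2 hc
    have h3 := hκ _ hF'
    have h4 := card_le_card hcl'
    have h5 := hbd' C'
    have h6 := hbd' C
    have h7 : (univ \ C).card + C.card = (univ : Finset A).card := by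
      rw [card_sdiff_add_card, union_eq_left.2 (subset_univ _)]
    have h8 : C'.card + (cl S C).card = (univ : Finset A).card := by
      rw [hC', card_sdiff_add_card, union_eq_left.2 (subset_univ _)]
    refine hsm _ hF' ?_
    omega
  have hcompc : (univ \ cl S C).card + (cl S C).card = (univ : Finset A).card := by
    rw [card_sdiff_add_card, union_eq_left.2 (subset_univ _)]
  -- translates are equal or disjoint
  have key : ∀ x, (C ∩ tr x C).Nonempty → tr x C = C := by
    intro x hx
    have hDcard : (tr x C).card = C.card := card_tr x C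
    have hDbd : bd (tr x C) = bd C := by
      simp only [hbd]
      rw [cl_tr, card_tr, card_tr]
    by_contra hne
    set E := C ∩ tr x C with hE
    have hEC : E ⊂ C := by
      refine ⟨inter_subset_left, fun h => ?_⟩
      have h3 : C ⊆ tr x C := fun y hy => (mem_inter.1 (h hy)).2
      exact hne (eq_of_subset_of_card_le h3 hDcard.le).symm
    have hEF : E ∈ 𝓕 := by
      rw [hmem]
      refine ⟨hx, fun h => hCcl (univ_subset_iff.1 ?_)⟩
      rw [← h]
      exact cl_mono inter_subset_left
    have hEbd : bd C + 1 ≤ bd E := by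
      have h3 := hκ _ hEF
      rcases Nat.lt_or_ge (bd C) (bd E) with h4 | h4
      · exact h4
      · have := hsm _ hEF (le_antisymm h4 h3)
        have := card_lt_card hEC
        omega
    have hsub := submod S C (tr x C)
    have hcu := card_union_add_card_inter C (tr x C)
    rw [← hE] at hsub hcu
    have e1 := hbd' C
    have e2 := hbd' (tr x C)
    have e3 := hbd' E
    have e4 := hbd' (C ∪ tr x C)
    have hEpos : 0 < E.card := hx.card_pos
    have hUbd : bd (C ∪ tr x C) < bd C := by omega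
    have hU : cl S (C ∪ tr x C) = univ := by
      by_contra hU
      have := hκ (C ∪ tr x C) ((hmem _).2 ⟨hCne.mono subset_union_left, hU⟩)
      omega
    rw [hU] at e4
    omega
  -- the subgroup
  obtain ⟨c0, hc0⟩ := hCne
  have hadd : ∀ x y, x + c0 ∈ C → y + c0 ∈ C → (y - x) + c0 ∈ C := by
    intro x y hx hy
    have h3 : tr (-x) C = C := by
      refine key (-x) ⟨c0, mem_inter.2 ⟨hc0, mem_tr.2 ?_⟩⟩
      rwa [sub_neg_eq_add, add_comm]
    rw [← h3, mem_tr]
    rwa [show y - x + c0 - -x = y + c0 by abel]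
  let H : AddSubgroup A :=
    { carrier := {x | x + c0 ∈ C}
      zero_mem' := by
        change 0 + c0 ∈ C
        rwa [zero_add]
      add_mem' := by
        intro x y hx hy
        have h3 : (0 - x) + c0 ∈ C := hadd x 0 hx (by rwa [zero_add])
        have h4 := hadd (0 - x) y h3 hy
        change (x + y) + c0 ∈ C
        rwa [show y - (0 - x) + c0 = x + y + c0 by abel] at h4
      neg_mem' := by
        intro x hx
        have h3 : (0 - x) + c0 ∈ C := hadd x 0 hx (by rwa [zero_add])
        change -x + c0 ∈ C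
        rwa [zero_sub] at h3 }
  have hH : hf H = tr (-c0) C := by
    ext x
    rw [mem_hf, mem_tr, sub_neg_eq_add]
    exact Iff.rfl
  refine ⟨H, ?_, ?_⟩
  · rw [hH, cl_tr]
    intro h
    apply hCcl
    apply eq_univ_of_card
    rw [← card_tr (-c0), h, card_univ]
  · rw [hH, cl_tr, card_tr, card_tr]
    have h3 : bd C ≤ bd C0 := hκ C0 ((hmem _).2 ⟨h0, h1⟩)
    have e1 := hbd' C
    have e2 := hbd' C0
    omega

/-- `k`-connectivity of Cayley graphs -/
theorem VC_cay (S : Finset A) (hS : Sy S) (k : ℕ) (hk : k ≤ S.card)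
    (hH : ∀ H : AddSubgroup A, H ≠ ⊥ → cl S (hf H) ≠ univ → (hf H).card + k ≤ (cl S (hf H)).card) :
    VC k (cay S) := by
  classical
  have hlt : S.card < Fintype.card A := by
    rw [← card_univ]
    exact card_lt_card ⟨subset_univ _, fun h => hS.zero (h (mem_univ _))⟩
  refine ⟨by rw [Nat.card_eq_fintype_card]; omega, fun X hX => ?_⟩
  by_contra hcon
  have hXne : (Xᶜ).Nonempty := by
    rw [Set.nonempty_iff_ne_empty]
    intro h
    rw [Set.compl_empty_iff] at h
    rw [h, Set.ncard_univ, Nat.card_eq_fintype_card] at hX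
    omega
  have hpre : ¬ ((cay S).induce Xᶜ).Preconnected := by
    intro h
    refine hcon ?_
    have : Nonempty (Xᶜ : Set A) := hXne.to_subtype
    exact ⟨h⟩
  simp only [SimpleGraph.Preconnected] at hpre
  push Not at hpre
  obtain ⟨u, v, huv⟩ := hpre
  set C : Finset A := univ.filter fun x => ∃ hx : x ∈ Xᶜ, ((cay S).induce Xᶜ).Reachable u ⟨x, hx⟩
    with hC
  have hmC : ∀ x, x ∈ C ↔ ∃ hx : x ∈ Xᶜ, ((cay S).induce Xᶜ).Reachable u ⟨x, hx⟩ :=
    fun x => by simp [hC]
  have hclC : ∀ x ∈ cl S C, x ∈ C ∨ x ∈ X := by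
    intro x hx
    by_cases hxX : x ∈ X
    · exact Or.inr hxX
    left
    obtain ⟨c, hc, h⟩ := mem_cl.1 hx
    obtain ⟨hcX, hr⟩ := (hmC c).1 hc
    rcases h with rfl | h
    · exact hc
    · refine (hmC x).2 ⟨hxX, hr.trans ?_⟩
      apply SimpleGraph.Adj.reachable
      rw [SimpleGraph.induce_adj]
      exact (cay_adj hS c x).2 h
  have h1 : cl S C ≠ univ := by
    intro h
    have hv : (v : A) ∈ cl S C := by rw [h]; exact mem_univ _
    rcases hclC _ hv with h2 | h2
    · obtain ⟨_, hr⟩ := (hmC _).1 h2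
      exact huv hr
    · exact v.2 h2
  have h2 : (cl S C).card < C.card + k := by
    have h3 : cl S C ⊆ C ∪ X.toFinset := by
      intro x hx
      rw [mem_union, Set.mem_toFinset]
      exact hclC x hx
    have h4 := (card_le_card h3).trans (card_union_le _ _)
    rw [Set.ncard_eq_toFinset_card'] at hX
    omega
  obtain ⟨H, hH1, hH2⟩ := atom S hS k C ⟨u, (hmC _).2 ⟨u.2, SimpleGraph.Reachable.refl _⟩⟩ h1 h2
  by_cases hbot : H = ⊥
  · subst hbot
    have h3 : hf (⊥ : AddSubgroup A) = {0} := by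
      ext x
      rw [mem_hf, mem_singleton, AddSubgroup.mem_bot]
    have h4 : cl S {0} = insert 0 S := by
      ext x
      rw [mem_cl, mem_insert]
      simp
    rw [h3, h4, card_insert_of_notMem hS.zero, card_singleton] at hH2
    omega
  · have := hH H hbot hH1
    omega

end

end Pool.Agent.Q6.KV
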