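import Mathlib
import Pool.Agent.W332.Kd.Rep
import Pool.Agent.Q6.KV.Atom

set_option autoImplicit false
set_option linter.unusedSectionVars false

/-!
# Sets of pairs `{a, -a}` in abelian groups of odd order
-/

namespace Pool.Agent.Q6.KV

open Finset
open Pool.Agent.W332.Kd (cay Sy cay_adj Rp pr mem_pr mem_Rp pr_sy pr_disj cover_pr part_pr)

section

variable {A : Type} [AddCommGroup A] [Fintype A] [DecidableEq A]

theorem neg_ne_of_odd (hodd : Odd (Fintype.card A)) {a : A} (ha : a ≠ 0) : -a ≠ a := by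
  intro h
  have h1 : (2 : ℕ) • a = 0 := by
    rw [two_nsmul]
    nth_rewrite 1 [← h]
    exact neg_add_cancel a
  have h2 : addOrderOf a ∣ 2 := addOrderOf_dvd_of_nsmul_eq_zero h1
  have h3 : addOrderOf a ∣ Fintype.card A := addOrderOf_dvd_card
  have h4 : addOrderOf a ∣ 1 := by
    have h5 : Nat.gcd 2 (Fintype.card A) = 1 := Nat.coprime_iff_gcd_eq_one.1
      (Nat.coprime_two_left.2 hodd)
    rw [← h5]
    exact Nat.dvd_gcd h2 h3
  exact ha (AddMonoid.addOrderOf_eq_one_iff.1 (Nat.dvd_one.1 h4))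

theorem card_pr2 (hodd : Odd (Fintype.card A)) {a : A} (ha : a ≠ 0) : (pr a).card = 2 := by
  unfold pr
  rw [Finset.card_pair (fun h => neg_ne_of_odd hodd ha h.symm)]

/-- the connection set of a set of pairs -/
noncomputable def SI (I : Finset (Rp A)) : Finset A := I.biUnion fun j => pr j.1

theorem mem_SI {I : Finset (Rp A)} {x : A} : x ∈ SI I ↔ ∃ j ∈ I, x ∈ pr j.1 := by
  simp [SI]

theorem SI_sy (I : Finset (Rp A)) : Sy (SI I) := part_pr.sy_biUnion I

theorem card_SI (hodd : Odd (Fintype.card A)) (I : Finset (Rp A)) : (SI I).card = 2 * I.card := by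
  unfold SI
  rw [card_biUnion (fun i _ j _ hij => part_pr.disj i j hij),
    sum_congr rfl (fun (j : Rp A) _ => card_pr2 hodd ((mem_Rp _).1 j.2).1), sum_const,
    smul_eq_mul, mul_comm]

omit [Fintype A] in
theorem self_mem_pr (a : A) : a ∈ pr a := (mem_pr _ _).2 (Or.inl rfl)

/-- the pairs contained in a symmetric set -/
noncomputable def pin (Y : Finset A) : Finset (Rp A) := univ.filter fun j => j.1 ∈ Y

theorem mem_pin {Y : Finset A} {j : Rp A} : j ∈ pin Y ↔ j.1 ∈ Y := by simp [pin]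

theorem SI_pin (Y : Finset A) (hY : Sy Y) : SI (pin Y) = Y := by
  ext x
  rw [mem_SI]
  constructor
  · rintro ⟨j, hj, hx⟩
    rw [mem_pin] at hj
    rcases (mem_pr _ _).1 hx with rfl | rfl
    · exact hj
    · exact hY.neg _ hj
  · intro hx
    obtain ⟨j, hj⟩ := cover_pr x (fun h => hY.zero (h ▸ hx))
    refine ⟨j, mem_pin.2 ?_, hj⟩
    rcases (mem_pr _ _).1 hj with h | h
    · rwa [← h]
    · have := hY.neg _ hx
      rwa [h, neg_neg] at this

theorem card_pin (hodd : Odd (Fintype.card A)) (Y : Finset A) (hY : Sy Y) :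
    2 * (pin Y).card = Y.card := by
  rw [← card_SI hodd, SI_pin Y hY]

theorem card_Rp (hodd : Odd (Fintype.card A)) :
    2 * Fintype.card (Rp A) + 1 = Fintype.card A := by
  have hY : Sy (univ.erase (0 : A)) :=
    ⟨fun h => (mem_erase.1 h).1 rfl, fun a h => mem_erase.2 ⟨neg_ne_zero.2 (mem_erase.1 h).1, mem_univ _⟩⟩
  have h1 := card_pin hodd _ hY
  have h2 : pin (univ.erase (0 : A)) = univ := by
    ext j
    rw [mem_pin, mem_erase]
    exact ⟨fun _ => mem_univ _, fun _ => ⟨((mem_Rp _).1 j.2).1, mem_univ _⟩⟩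
  rw [h2, card_univ, card_erase_of_mem (mem_univ _), card_univ] at h1
  have : 0 < Fintype.card A := Fintype.card_pos_iff.2 ⟨0⟩
  omega

/-- the subgroup generated by a set of pairs -/
def gn (I : Finset (Rp A)) : AddSubgroup A := AddSubgroup.closure (SI I : Set A)

theorem gn_le (I : Finset (Rp A)) (H : AddSubgroup A) : gn I ≤ H ↔ ∀ j ∈ I, j.1 ∈ H := by
  unfold gn
  rw [AddSubgroup.closure_le]
  constructor
  · intro h j hj
    exact h (mem_coe.2 (mem_SI.2 ⟨j, hj, self_mem_pr _⟩))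
  · intro h x hx
    obtain ⟨j, hj, hx⟩ := mem_SI.1 (mem_coe.1 hx)
    rcases (mem_pr _ _).1 hx with rfl | rfl
    · exact h j hj
    · exact H.neg_mem (h j hj)

theorem hf_card (H : AddSubgroup A) : (hf H).card = Nat.card H := by
  rw [← Nat.card_eq_finsetCard]
  exact Nat.card_congr (Equiv.subtypeEquivRight fun x => mem_hf)

/-- the pairs in a subgroup -/
noncomputable def pk (H : AddSubgroup A) : Finset (Rp A) := pin (hf H)

theorem mem_pk {H : AddSubgroup A} {j : Rp A} : j ∈ pk H ↔ j.1 ∈ H := by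
  rw [pk, mem_pin, mem_hf]

theorem gn_le' (I : Finset (Rp A)) (H : AddSubgroup A) : gn I ≤ H ↔ I ⊆ pk H := by
  rw [gn_le]
  exact ⟨fun h j hj => mem_pk.2 (h j hj), fun h j hj => mem_pk.1 (h hj)⟩

theorem card_pk (hodd : Odd (Fintype.card A)) (H : AddSubgroup A) :
    2 * (pk H).card + 1 = Nat.card H := by
  have hY : Sy ((hf H).erase (0 : A)) :=
    ⟨fun h => (mem_erase.1 h).1 rfl, fun a h => mem_erase.2 ⟨neg_ne_zero.2 (mem_erase.1 h).1,
      mem_hf.2 (H.neg_mem (mem_hf.1 (mem_erase.1 h).2))⟩⟩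
  have h1 := card_pin hodd _ hY
  have h2 : pin ((hf H).erase (0 : A)) = pk H := by
    ext j
    rw [mem_pin, mem_erase, pk, mem_pin]
    exact ⟨fun h => h.2, fun h => ⟨((mem_Rp _).1 j.2).1, h⟩⟩
  rw [h2, card_erase_of_mem (mem_hf.2 H.zero_mem), hf_card] at h1
  have : 0 < Nat.card H := Nat.card_pos
  omega

end

section

variable {A : Type} [AddCommGroup A] [Fintype A] [DecidableEq A]
variable {Q : Type} [AddCommGroup Q] [Fintype Q] [DecidableEq Q]

theorem card_preim (φ : A →+ Q) (hφ : Function.Surjective φ) (Y : Finset Q) :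
    (univ.filter fun x => φ x ∈ Y).card = Y.card * Nat.card φ.ker := by
  have h1 := Finset.card_eq_sum_card_fiberwise (s := univ.filter fun x => φ x ∈ Y) (t := Y)
    (f := fun x => φ x) (by
      intro x hx
      exact (mem_filter.1 (mem_coe.1 hx)).2)
  rw [h1, sum_const_nat (m := Nat.card φ.ker)]
  intro y hy
  obtain ⟨x0, hx0⟩ := hφ y
  rw [← hf_card, ← card_tr x0 (hf φ.ker)]
  congr 1
  ext x
  rw [mem_filter, mem_filter, mem_tr, mem_hf, AddMonoidHom.mem_ker, map_sub, hx0, sub_eq_zero]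
  constructor
  · exact fun h => h.2
  · exact fun h => ⟨⟨mem_univ _, by rw [h]; exact hy⟩, h⟩

/-- the pairs over a set of pairs of the quotient and `0` -/
noncomputable def LT (φ : A →+ Q) (T : Finset (Rp Q)) : Finset (Rp A) :=
  univ.filter fun i => φ i.1 ∈ insert 0 (SI T)

theorem mem_LT {φ : A →+ Q} {T : Finset (Rp Q)} {i : Rp A} :
    i ∈ LT φ T ↔ φ i.1 = 0 ∨ φ i.1 ∈ SI T := by
  simp [LT]

theorem card_LT (hodd : Odd (Fintype.card A)) (hodd' : Odd (Fintype.card Q)) (φ : A →+ Q)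
    (hφ : Function.Surjective φ) (T : Finset (Rp Q)) :
    2 * (LT φ T).card + 1 = (2 * T.card + 1) * Nat.card φ.ker := by
  have h0 : (insert 0 (SI T)).card = 2 * T.card + 1 := by
    rw [card_insert_of_notMem (SI_sy T).zero, card_SI hodd']
  have h1 := card_preim φ hφ (insert 0 (SI T))
  rw [h0] at h1
  set X := univ.filter fun x => φ x ∈ insert 0 (SI T) with hX
  have hmX : ∀ x, x ∈ X ↔ φ x ∈ insert 0 (SI T) := fun x => by simp [hX]
  have hY : Sy (X.erase (0 : A)) := by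
    refine ⟨fun h => (mem_erase.1 h).1 rfl, fun a h => mem_erase.2
      ⟨neg_ne_zero.2 (mem_erase.1 h).1, ?_⟩⟩
    have h2 := (hmX _).1 (mem_erase.1 h).2
    rw [hmX, map_neg]
    rcases mem_insert.1 h2 with h3 | h3
    · rw [h3, neg_zero]
      exact mem_insert_self _ _
    · exact mem_insert_of_mem ((SI_sy T).neg _ h3)
  have h2 := card_pin hodd _ hY
  have h3 : pin (X.erase (0 : A)) = LT φ T := by
    ext j
    rw [mem_pin, mem_erase, hmX, LT, mem_filter]
    exact ⟨fun h => ⟨mem_univ _, h.2⟩, fun h => ⟨((mem_Rp _).1 j.2).1, h.2⟩⟩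
  have h4 : (0 : A) ∈ X := by
    rw [hmX, map_zero]
    exact mem_insert_self _ _
  rw [h3, card_erase_of_mem h4, h1] at h2
  have h5 : 0 < (2 * T.card + 1) * Nat.card φ.ker :=
    Nat.mul_pos (by omega) Nat.card_pos
  omega

/-- a bad set of pairs lies over few pairs of the quotient -/
theorem bad_of (hodd' : Odd (Fintype.card Q)) (φ : A →+ Q)
    (hφ : Function.Surjective φ) (I : Finset (Rp A)) (t : ℕ)
    (h1 : cl (SI I) (hf φ.ker) ≠ univ)
    (h2 : (cl (SI I) (hf φ.ker)).card < (hf φ.ker).card + 2 * t) :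
    ∃ T : Finset (Rp Q), T ≠ univ ∧ Nat.card φ.ker * T.card < t ∧ I ⊆ LT φ T ∧
      (T = ∅ → gn I ≤ φ.ker) := by
  classical
  set T : Finset (Rp Q) := univ.filter fun j => ∃ i ∈ I, φ i.1 ∈ pr j.1 with hT
  have hmT : ∀ j, j ∈ T ↔ ∃ i ∈ I, φ i.1 ∈ pr j.1 := fun j => by simp [hT]
  have hsym : ∀ (i : Rp A) (j : Rp Q), φ i.1 ∈ pr j.1 → ∀ x : A, φ x ∈ pr j.1 →
      φ x = φ i.1 ∨ φ x = φ (-i.1) := by
    intro i j hi x hx
    rw [mem_pr] at hi hx
    rw [map_neg]
    rcases hi with hi | hi <;> rcases hx with hx | hx <;> rw [hi, hx]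
    · exact Or.inl rfl
    · exact Or.inr rfl
    · exact Or.inr (neg_neg _).symm
    · exact Or.inl rfl
  have hcl : ∀ x : A, φ x ∈ insert 0 (SI T) → x ∈ cl (SI I) (hf φ.ker) := by
    intro x hx
    rw [mem_cl]
    rcases mem_insert.1 hx with hx | hx
    · exact ⟨x, mem_hf.2 hx, Or.inl rfl⟩
    · obtain ⟨j, hj, hxj⟩ := mem_SI.1 hx
      obtain ⟨i, hi, hij⟩ := (hmT j).1 hj
      rcases hsym i j hij x hxj with h | h
      · refine ⟨x - i.1, mem_hf.2 ?_, Or.inr ?_⟩
        · rw [AddMonoidHom.mem_ker, map_sub, h, sub_self]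
        · rw [sub_sub_cancel]
          exact mem_SI.2 ⟨i, hi, self_mem_pr _⟩
      · refine ⟨x - (-i.1), mem_hf.2 ?_, Or.inr ?_⟩
        · rw [AddMonoidHom.mem_ker, map_sub, h, sub_self]
        · rw [sub_sub_cancel]
          exact mem_SI.2 ⟨i, hi, (mem_pr _ _).2 (Or.inr rfl)⟩
  refine ⟨T, ?_, ?_, ?_, ?_⟩
  · intro h
    apply h1
    rw [Finset.eq_univ_iff_forall]
    intro x
    apply hcl
    by_cases hx : φ x = 0
    · rw [hx]
      exact mem_insert_self _ _
    · obtain ⟨j, hj⟩ := cover_pr (φ x) hx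
      refine mem_insert_of_mem (mem_SI.2 ⟨j, ?_, hj⟩)
      rw [h]
      exact mem_univ _
  · have h3 := card_preim φ hφ (insert 0 (SI T))
    rw [card_insert_of_notMem (SI_sy T).zero, card_SI hodd'] at h3
    have h4 : (univ.filter fun x => φ x ∈ insert 0 (SI T)) ⊆ cl (SI I) (hf φ.ker) := by
      intro x hx
      exact hcl x (mem_filter.1 hx).2
    have h5 := card_le_card h4
    rw [h3] at h5
    rw [hf_card] at h2
    have h6 : (2 * T.card + 1) * Nat.card φ.ker =
        2 * (Nat.card φ.ker * T.card) + Nat.card φ.ker := by ring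
    omega
  · intro i hi
    rw [mem_LT]
    by_cases hx : φ i.1 = 0
    · exact Or.inl hx
    · right
      obtain ⟨j, hj⟩ := cover_pr (φ i.1) hx
      exact mem_SI.2 ⟨j, (hmT j).2 ⟨i, hi, hj⟩, hj⟩
  · intro h
    rw [gn_le]
    intro i hi
    rw [AddMonoidHom.mem_ker]
    by_contra hx
    obtain ⟨j, hj⟩ := cover_pr (φ i.1) hx
    have : j ∈ T := (hmT j).2 ⟨i, hi, hj⟩
    rw [h] at this
    exact absurd this (notMem_empty _)

end

end Pool.Agent.Q6.KV
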