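import Mathlib
import Pool.Agent.Q6.KV.Num
import Pool.Agent.Q6.KV.Pairs

set_option autoImplicit false
set_option linter.unusedSectionVars false

/-!
# Signed numbers of generating sets of pairs in cyclic groups
-/

namespace Pool.Agent.Q6.KV

open Finset
open Pool.Agent.W332.Kd (cay Sy cay_adj Rp pr mem_pr mem_Rp pr_sy pr_disj cover_pr part_pr)

noncomputable section

open Classical

variable {A : Type} [AddCommGroup A] [Fintype A] [DecidableEq A]

instance instFA : Fintype (AddSubgroup A) := Fintype.ofFinite _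

/-- the multiples of `1 / d` -/
def ks (A : Type) [AddCommGroup A] (d : ℕ) : AddSubgroup A := (nsmulAddMonoidHom d : A →+ A).ker

theorem mem_ks {d : ℕ} {x : A} : x ∈ ks A d ↔ d • x = 0 := by
  rw [ks, AddMonoidHom.mem_ker]
  exact Iff.rfl

theorem card_ks [IsAddCyclic A] (d : ℕ) : Nat.card (ks A d) = (Nat.card A).gcd d :=
  IsAddCyclic.card_nsmulAddMonoidHom_ker A d

theorem eq_ks [IsAddCyclic A] (K : AddSubgroup A) : K = ks A (Nat.card K) := by
  apply AddSubgroup.eq_of_le_of_card_ge
  · intro x hx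
    rw [mem_ks]
    have : Nat.card K • (⟨x, hx⟩ : K) = 0 := card_nsmul_eq_zero'
    exact congrArg Subtype.val this
  · rw [card_ks, Nat.gcd_eq_right (AddSubgroup.card_addSubgroup_dvd_card K)]

theorem card_inj [IsAddCyclic A] {K K' : AddSubgroup A} (h : Nat.card K = Nat.card K') :
    K = K' := by
  rw [eq_ks K, eq_ks K', h]

/-- signed number of the sets of at least `t` pairs that generate `K` -/
def g (t : ℕ) (K : AddSubgroup A) : ℤ :=
  ∑ I ∈ univ.filter (fun I : Finset (Rp A) => gn I = K ∧ t ≤ I.card), (-1 : ℤ) ^ I.card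

theorem fib (t : ℕ) (K : AddSubgroup A) :
    ∑ I ∈ (pk K).powerset.filter (fun I => t ≤ I.card), (-1 : ℤ) ^ I.card =
      ∑ K' ∈ univ.filter (fun K' : AddSubgroup A => K' ≤ K), g t K' := by
  rw [← Finset.sum_fiberwise_of_maps_to (s := (pk K).powerset.filter (fun I => t ≤ I.card))
    (t := univ.filter (fun K' : AddSubgroup A => K' ≤ K)) (g := gn)]
  · refine sum_congr rfl fun K' hK' => ?_
    unfold g
    refine sum_congr ?_ fun _ _ => rfl
    ext I
    simp only [mem_filter, mem_powerset, mem_univ, true_and]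
    constructor
    · rintro ⟨⟨_, h2⟩, h3⟩
      exact ⟨h3, h2⟩
    · rintro ⟨h3, h2⟩
      refine ⟨⟨?_, h2⟩, h3⟩
      rw [← gn_le', h3]
      exact (mem_filter.1 hK').2
  · intro I hI
    rw [mem_filter, mem_powerset, ← gn_le'] at hI
    exact mem_filter.2 ⟨mem_univ _, hI.1⟩

theorem filter_le (K : AddSubgroup A) :
    univ.filter (fun K' : AddSubgroup A => K' ≤ K) =
      insert K (univ.filter (fun K' : AddSubgroup A => K' < K)) := by
  ext K'
  simp only [mem_filter, mem_univ, true_and, mem_insert]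
  exact le_iff_eq_or_lt

theorem notMem_lt (K : AddSubgroup A) : K ∉ univ.filter (fun K' : AddSubgroup A => K' < K) := by
  simp

theorem card_lt_of_lt {K H : AddSubgroup A} (h : K < H) : Nat.card K < Nat.card H := by
  rw [← hf_card, ← hf_card]
  refine Finset.card_lt_card ⟨fun x hx => mem_hf.2 (h.1 (mem_hf.1 hx)), fun h' => ?_⟩
  exact h.2 fun x hx => mem_hf.1 (h' (mem_hf.2 hx))

/-! ### the Moebius function -/

theorem g_zero [IsAddCyclic A] : ∀ (N : ℕ) (K : AddSubgroup A), Nat.card K ≤ N →
    g 0 K = ArithmeticFunction.moebius (Nat.card K) := by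
  intro N
  induction N with
  | zero =>
    intro K hK
    have : 0 < Nat.card K := Nat.card_pos
    omega
  | succ N ih =>
    intro K _
    have hpos : 0 < Nat.card K := Nat.card_pos
    have h1 := fib 0 K
    have h2 : ∑ I ∈ (pk K).powerset.filter (fun I => 0 ≤ I.card), (-1 : ℤ) ^ I.card =
        if Nat.card K = 1 then 1 else 0 := by
      rw [Finset.filter_true_of_mem (fun _ _ => Nat.zero_le _),
        Finset.sum_powerset_neg_one_pow_card]
      congr 1
      rw [eq_iff_iff]
      constructor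
      · intro h
        rw [AddSubgroup.card_eq_one, eq_bot_iff]
        intro x hx
        rw [AddSubgroup.mem_bot]
        by_contra hx0
        obtain ⟨j, hj⟩ := cover_pr x hx0
        have : j ∈ pk K := by
          rw [mem_pk]
          rcases (mem_pr _ _).1 hj with h3 | h3
          · rwa [← h3]
          · rw [h3] at hx
            simpa using K.neg_mem hx
        rw [h] at this
        exact absurd this (notMem_empty _)
      · intro h
        rw [AddSubgroup.card_eq_one] at h
        subst h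
        rw [eq_empty_iff_forall_notMem]
        intro j hj
        rw [mem_pk, AddSubgroup.mem_bot] at hj
        exact ((mem_Rp _).1 j.2).1 hj
    rw [h2, filter_le, sum_insert (notMem_lt K)] at h1
    have h3 : ∑ K' ∈ univ.filter (fun K' : AddSubgroup A => K' ≤ K),
        ArithmeticFunction.moebius (Nat.card K') = if Nat.card K = 1 then 1 else 0 := by
      have h4 : ∑ d ∈ (Nat.card K).divisors, ArithmeticFunction.moebius d =
          if Nat.card K = 1 then 1 else 0 := by
        have h5 : ((ArithmeticFunction.moebius : ArithmeticFunction ℤ) *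
            (ArithmeticFunction.zeta : ArithmeticFunction ℤ)) (Nat.card K) =
            (1 : ArithmeticFunction ℤ) (Nat.card K) := by
          rw [ArithmeticFunction.moebius_mul_coe_zeta]
        rw [ArithmeticFunction.coe_mul_zeta_apply, ArithmeticFunction.one_apply] at h5
        rw [← h5]
      rw [← h4]
      refine sum_bij' (fun K' _ => Nat.card K') (fun d _ => ks A d) ?_ ?_ ?_ ?_ ?_
      · intro K' hK'
        rw [Nat.mem_divisors]
        exact ⟨AddSubgroup.card_dvd_of_le (mem_filter.1 hK').2, hpos.ne'⟩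
      · intro d hd
        rw [mem_filter]
        refine ⟨mem_univ _, fun x hx => ?_⟩
        rw [mem_ks] at hx
        rw [eq_ks K, mem_ks]
        obtain ⟨e, he⟩ := (Nat.mem_divisors.1 hd).1
        rw [he, mul_comm, mul_smul, hx, smul_zero]
      · intro K' _
        exact (eq_ks K').symm
      · intro d hd
        rw [card_ks, Nat.gcd_eq_right]
        exact (Nat.mem_divisors.1 hd).1.trans (AddSubgroup.card_addSubgroup_dvd_card K)
      · intro K' _
        rfl
    rw [filter_le, sum_insert (notMem_lt K)] at h3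
    have h4 : ∑ K' ∈ univ.filter (fun K' : AddSubgroup A => K' < K), g 0 K' =
        ∑ K' ∈ univ.filter (fun K' : AddSubgroup A => K' < K),
          ArithmeticFunction.moebius (Nat.card K') := by
      refine sum_congr rfl fun K' hK' => ?_
      have := card_lt_of_lt (mem_filter.1 hK').2
      exact ih K' (by omega)
    rw [h4] at h1
    linarith

/-- at least two pairs -/
theorem g_two [IsAddCyclic A] (h2 : 2 ≤ Fintype.card A)
    (s : Finset (Rp A)) (hs : ∀ j ∈ s, gn {j} = (⊤ : AddSubgroup A))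
    (hcard : -ArithmeticFunction.moebius (Fintype.card A) < s.card) :
    0 < g 2 (⊤ : AddSubgroup A) := by
  have h0 := g_zero _ (⊤ : AddSubgroup A) le_rfl
  rw [AddSubgroup.card_top, Nat.card_eq_fintype_card] at h0
  have h1 : g 0 (⊤ : AddSubgroup A) = g 2 (⊤ : AddSubgroup A) +
      ∑ I ∈ univ.filter (fun I : Finset (Rp A) => gn I = ⊤ ∧ ¬ 2 ≤ I.card), (-1 : ℤ) ^ I.card := by
    unfold g
    rw [← Finset.sum_filter_add_sum_filter_not
      (univ.filter (fun I : Finset (Rp A) => gn I = ⊤ ∧ 0 ≤ I.card)) (fun I => 2 ≤ I.card),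
      filter_filter, filter_filter]
    congr 1
    · refine sum_congr ?_ fun _ _ => rfl
      ext I
      simp
    · refine sum_congr ?_ fun _ _ => rfl
      ext I
      simp
  have h3 : ∀ I ∈ univ.filter (fun I : Finset (Rp A) => gn I = ⊤ ∧ ¬ 2 ≤ I.card), I.card = 1 := by
    intro I hI
    obtain ⟨-, h4, h5⟩ := mem_filter.1 hI
    have h6 : I.card ≠ 0 := by
      intro h6
      rw [card_eq_zero] at h6
      subst h6
      have h7 : gn (∅ : Finset (Rp A)) = ⊥ := by
        rw [eq_bot_iff, gn_le]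
        intro j hj
        exact absurd hj (notMem_empty _)
      rw [h7] at h4
      have h8 : Nat.card (⊥ : AddSubgroup A) = Nat.card (⊤ : AddSubgroup A) := by rw [h4]
      rw [AddSubgroup.card_top, AddSubgroup.card_bot, Nat.card_eq_fintype_card] at h8
      omega
    omega
  have h4 : ∑ I ∈ univ.filter (fun I : Finset (Rp A) => gn I = ⊤ ∧ ¬ 2 ≤ I.card), (-1 : ℤ) ^ I.card =
      -((univ.filter (fun I : Finset (Rp A) => gn I = ⊤ ∧ ¬ 2 ≤ I.card)).card : ℤ) := by
    rw [sum_congr rfl (g := fun _ => (-1 : ℤ)), sum_const, nsmul_eq_mul, mul_neg_one]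
    intro I hI
    rw [h3 I hI, pow_one]
  have h5 : s.card ≤ (univ.filter (fun I : Finset (Rp A) => gn I = ⊤ ∧ ¬ 2 ≤ I.card)).card := by
    refine card_le_card_of_injOn (fun j => {j}) ?_ ?_
    · intro j hj
      rw [mem_coe, mem_filter]
      refine ⟨mem_univ _, hs j hj, ?_⟩
      rw [card_singleton]
      omega
    · intro i _ j _ h
      exact singleton_injective h
  rw [h1, h4] at h0
  have h6 : (s.card : ℤ) ≤
      ((univ.filter (fun I : Finset (Rp A) => gn I = ⊤ ∧ ¬ 2 ≤ I.card)).card : ℤ) := by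
    exact_mod_cast h5
  linarith

/-! ### large `t` -/

/-- absolute value of the signed number of the sets of at least `t` pairs in `K` -/
def F (t : ℕ) (K : AddSubgroup A) : ℕ := ((pk K).card - 1).choose (t - 1)

theorem fibF (t : ℕ) (ht : 2 ≤ t) (K : AddSubgroup A) :
    ∑ I ∈ (pk K).powerset.filter (fun I => t ≤ I.card), (-1 : ℤ) ^ I.card =
      (-1) ^ t * (F t K : ℤ) := by
  rcases (pk K).eq_empty_or_nonempty with h | h
  · unfold F
    rw [h, card_empty, Nat.zero_sub, Nat.choose_eq_zero_of_lt (by omega : 0 < t - 1),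
      Nat.cast_zero, mul_zero, powerset_empty]
    apply Finset.sum_eq_zero
    intro I hI
    rw [mem_filter, mem_singleton] at hI
    rw [hI.1, card_empty] at hI
    omega
  · exact alt_sum _ t (by omega) h

theorem ratio (hodd : Odd (Fintype.card A)) {K H : AddSubgroup A} (h : K < H) :
    ∃ a, 1 ≤ a ∧ Nat.card H = (2 * a + 1) * Nat.card K := by
  obtain ⟨d, hd⟩ := AddSubgroup.card_dvd_of_le h.le
  have h1 := card_pk hodd H
  have h2 := card_pk hodd K
  have h3 := card_lt_of_lt h
  have h4 : Odd (Nat.card H) := ⟨_, h1.symm⟩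
  rw [hd, Nat.odd_mul] at h4
  obtain ⟨a, ha⟩ := h4.2
  refine ⟨a, ?_, by rw [hd, ha, mul_comm]⟩
  by_contra hcon
  have : a = 0 := by omega
  rw [ha, this] at hd
  omega

theorem F_step (hodd : Odd (Fintype.card A)) (t : ℕ) (ht : 3 ≤ t) {K H : AddSubgroup A} {a : ℕ}
    (ha : Nat.card H = (2 * a + 1) * Nat.card K) :
    F t K * (4 * a * (a + 1)) ≤ F t H := by
  have h1 := card_pk hodd H
  have h2 := card_pk hodd K
  unfold F
  have h3 : (pk H).card = (2 * a + 1) * (pk K).card + a := by
    rw [ha, ← h2] at h1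
    have : (2 * a + 1) * (2 * (pk K).card + 1) = 2 * ((2 * a + 1) * (pk K).card + a) + 1 := by ring
    omega
  rcases Nat.eq_zero_or_pos (pk K).card with h4 | h4
  · rw [h4, Nat.zero_sub, Nat.choose_eq_zero_of_lt (by omega : 0 < t - 1), zero_mul]
    exact Nat.zero_le _
  have h5 := choose_dil (2 * a + 1) ((pk K).card - 1) (t - 1) (by omega)
  have h6 : (2 * a + 1) * ((pk K).card - 1) ≤ (pk H).card - 1 := by
    obtain ⟨x, hx⟩ : ∃ x, (pk K).card = x + 1 := ⟨(pk K).card - 1, by omega⟩
    rw [h3, hx, Nat.add_sub_cancel]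
    have : (2 * a + 1) * (x + 1) = (2 * a + 1) * x + (2 * a + 1) := by ring
    omega
  calc ((pk K).card - 1).choose (t - 1) * (4 * a * (a + 1)) ≤
      (2 * a + 1) ^ 2 * ((pk K).card - 1).choose (t - 1) := by
        rw [mul_comm]
        exact Nat.mul_le_mul_right _ (by nlinarith)
    _ ≤ ((2 * a + 1) * ((pk K).card - 1)).choose (t - 1) := h5
    _ ≤ ((pk H).card - 1).choose (t - 1) := Nat.choose_le_choose _ h6

theorem F_sum [IsAddCyclic A] (hodd : Odd (Fintype.card A)) (t : ℕ) (ht : 3 ≤ t)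
    (H : AddSubgroup A) :
    4 * ∑ K ∈ univ.filter (fun K : AddSubgroup A => K < H), (F t K : ℚ) ≤ F t H := by
  have hex : ∀ K : AddSubgroup A, ∃ a : ℕ, K < H → 1 ≤ a ∧
      Nat.card H = (2 * a + 1) * Nat.card K := by
    intro K
    by_cases h : K < H
    · obtain ⟨a, ha⟩ := ratio hodd h
      exact ⟨a, fun _ => ha⟩
    · exact ⟨0, fun h' => absurd h' h⟩
  choose α hα using hex
  have hinj : ∀ K ∈ univ.filter (fun K : AddSubgroup A => K < H), ∀ K' ∈
      univ.filter (fun K : AddSubgroup A => K < H), α K = α K' → K = K' := by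
    intro K hK K' hK' h
    have h1 := (hα K (mem_filter.1 hK).2).2
    have h2 := (hα K' (mem_filter.1 hK').2).2
    rw [h, h2] at h1
    exact card_inj (Nat.eq_of_mul_eq_mul_left (by omega) h1.symm)
  have h1 : ∀ K ∈ univ.filter (fun K : AddSubgroup A => K < H),
      4 * (F t K : ℚ) ≤ F t H * (1 / (α K * (α K + 1))) := by
    intro K hK
    obtain ⟨h2, h3⟩ := hα K (mem_filter.1 hK).2
    have h4 := F_step hodd t ht h3
    have h5 : (F t K : ℚ) * (4 * α K * (α K + 1)) ≤ F t H := by exact_mod_cast h4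
    have h6 : (0 : ℚ) < α K * (α K + 1) := by
      have : (0 : ℚ) < α K := by exact_mod_cast h2
      positivity
    rw [mul_one_div, le_div_iff₀ h6]
    linarith
  rw [mul_sum]
  refine (sum_le_sum h1).trans ?_
  rw [← mul_sum]
  have h2 : ∑ K ∈ univ.filter (fun K : AddSubgroup A => K < H),
      (1 : ℚ) / (α K * (α K + 1)) < 1 := by
    have h3 := tele ((univ.filter (fun K : AddSubgroup A => K < H)).image α) (by
      intro a ha
      obtain ⟨K, hK, rfl⟩ := mem_image.1 ha
      exact (hα K (mem_filter.1 hK).2).1)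
    rwa [sum_image hinj] at h3
  have h3 : (0 : ℚ) ≤ F t H := Nat.cast_nonneg _
  nlinarith

theorem g_bound [IsAddCyclic A] (hodd : Odd (Fintype.card A)) (t : ℕ) (ht : 3 ≤ t) :
    ∀ (N : ℕ) (H : AddSubgroup A), Nat.card H ≤ N → |(g t H : ℚ)| ≤ 2 * F t H := by
  intro N
  induction N with
  | zero =>
    intro H hH
    have : 0 < Nat.card H := Nat.card_pos
    omega
  | succ N ih =>
    intro H _
    have h1 := fib t H
    rw [fibF t (by omega), filter_le, sum_insert (notMem_lt H)] at h1
    have h2 : (g t H : ℚ) = (-1) ^ t * F t H -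
        ∑ K ∈ univ.filter (fun K : AddSubgroup A => K < H), (g t K : ℚ) := by
      have : (((-1) ^ t * (F t H : ℤ) : ℤ) : ℚ) = ((g t H +
        ∑ K ∈ univ.filter (fun K : AddSubgroup A => K < H), g t K : ℤ) : ℚ) := by rw [h1]
      push_cast at this
      linarith
    have h3 : |∑ K ∈ univ.filter (fun K : AddSubgroup A => K < H), (g t K : ℚ)| ≤
        2 * ∑ K ∈ univ.filter (fun K : AddSubgroup A => K < H), (F t K : ℚ) := by
      rw [mul_sum]
      refine (abs_sum_le_sum_abs _ _).trans (sum_le_sum fun K hK => ?_)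
      have := card_lt_of_lt (mem_filter.1 hK).2
      exact ih K (by omega)
    have h4 := F_sum hodd t ht H
    have h5 : |((-1) ^ t * F t H : ℚ)| = F t H := by
      rw [abs_mul, abs_pow, abs_neg, abs_one, one_pow, one_mul, Nat.abs_cast]
    have h6 := abs_sub ((-1) ^ t * F t H : ℚ)
      (∑ K ∈ univ.filter (fun K : AddSubgroup A => K < H), (g t K : ℚ))
    rw [h2]
    have h7 : (0 : ℚ) ≤ F t H := Nat.cast_nonneg _
    linarith

theorem g_top [IsAddCyclic A] (hodd : Odd (Fintype.card A)) (t : ℕ) (ht : 3 ≤ t) :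
    (F t (⊤ : AddSubgroup A) : ℚ) / 2 ≤ (-1) ^ t * g t (⊤ : AddSubgroup A) := by
  have h1 := fib t (⊤ : AddSubgroup A)
  rw [fibF t (by omega), filter_le, sum_insert (notMem_lt _)] at h1
  have h2 : (g t (⊤ : AddSubgroup A) : ℚ) = (-1) ^ t * F t (⊤ : AddSubgroup A) -
      ∑ K ∈ univ.filter (fun K : AddSubgroup A => K < ⊤), (g t K : ℚ) := by
    have : (((-1) ^ t * (F t (⊤ : AddSubgroup A) : ℤ) : ℤ) : ℚ) = ((g t (⊤ : AddSubgroup A) +
      ∑ K ∈ univ.filter (fun K : AddSubgroup A => K < ⊤), g t K : ℤ) : ℚ) := by rw [h1]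
    push_cast at this
    linarith
  have h3 : |∑ K ∈ univ.filter (fun K : AddSubgroup A => K < ⊤), (g t K : ℚ)| ≤
      2 * ∑ K ∈ univ.filter (fun K : AddSubgroup A => K < ⊤), (F t K : ℚ) := by
    rw [mul_sum]
    refine (abs_sum_le_sum_abs _ _).trans (sum_le_sum fun K hK => ?_)
    exact g_bound hodd t ht _ K le_rfl
  have h4 := F_sum hodd t ht (⊤ : AddSubgroup A)
  have h5 : ((-1) ^ t * ((-1) ^ t * F t (⊤ : AddSubgroup A)) : ℚ) = F t (⊤ : AddSubgroup A) := by
    rw [← mul_assoc, ← mul_pow]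
    norm_num
  have h6 : |((-1) ^ t * ∑ K ∈ univ.filter (fun K : AddSubgroup A => K < ⊤), (g t K : ℚ) : ℚ)| =
      |∑ K ∈ univ.filter (fun K : AddSubgroup A => K < ⊤), (g t K : ℚ)| := by
    rw [abs_mul, abs_pow, abs_neg, abs_one, one_pow, one_mul]
  have h7 := le_abs_self ((-1) ^ t *
    ∑ K ∈ univ.filter (fun K : AddSubgroup A => K < ⊤), (g t K : ℚ) : ℚ)
  rw [h2, mul_sub, h5]
  linarith

end

end Pool.Agent.Q6.KV
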