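import Mathlib
import Pool.Agent.Q6.KV.Count

set_option autoImplicit false
set_option linter.unusedSectionVars false

/-!
# The signed number of highly connected circulant graphs does not vanish
-/

namespace Pool.Agent.Q6.KV

open Finset
open Pool.Agent.W332.Kd (cay Sy cay_adj Rp pr mem_pr mem_Rp pr_sy pr_disj cover_pr part_pr)

noncomputable section

open Classical

variable {A : Type} [AddCommGroup A] [Fintype A] [DecidableEq A]

/-- generating sets of pairs such that few neighbours of a subgroup separate it -/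
def Bad (A : Type) [AddCommGroup A] [Fintype A] [DecidableEq A] (t : ℕ) : Finset (Finset (Rp A)) :=
  univ.filter fun I => gn I = ⊤ ∧ t ≤ I.card ∧ ∃ H : AddSubgroup A, H ≠ ⊥ ∧
    cl (SI I) (hf H) ≠ univ ∧ (cl (SI I) (hf H)).card < (hf H).card + 2 * t

theorem mem_Bad {t : ℕ} {I : Finset (Rp A)} : I ∈ Bad A t ↔ gn I = ⊤ ∧ t ≤ I.card ∧
    ∃ H : AddSubgroup A, H ≠ ⊥ ∧
    cl (SI I) (hf H) ≠ univ ∧ (cl (SI I) (hf H)).card < (hf H).card + 2 * t := by
  unfold Bad
  rw [mem_filter]
  exact ⟨fun h => h.2, fun h => ⟨mem_univ _, h⟩⟩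

/-- sets of pairs over few pairs of the quotient -/
def BH (H : AddSubgroup A) (t : ℕ) : Finset (Finset (Rp A)) :=
  univ.filter fun I => t ≤ I.card ∧ ∃ T : Finset (Rp (A ⧸ H)), T ≠ ∅ ∧ T ≠ univ ∧
    Nat.card H * T.card < t ∧ I ⊆ LT (QuotientAddGroup.mk' H) T

theorem card_quot (H : AddSubgroup A) : Fintype.card A = Fintype.card (A ⧸ H) * Nat.card H := by
  rw [← Nat.card_eq_fintype_card, ← Nat.card_eq_fintype_card]
  exact AddSubgroup.card_eq_card_quotient_mul_card_addSubgroup H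

theorem odd_quot (hodd : Odd (Fintype.card A)) (H : AddSubgroup A) :
    Odd (Fintype.card (A ⧸ H)) := by
  rw [card_quot H, Nat.odd_mul] at hodd
  exact hodd.1

theorem card_univ_Rp (hodd : Odd (Fintype.card A)) (H : AddSubgroup A) (a : ℕ)
    (ha : Nat.card H = 2 * a + 1) :
    (pk (⊤ : AddSubgroup A)).card = (2 * a + 1) * Fintype.card (Rp (A ⧸ H)) + a := by
  have h1 := card_pk hodd (⊤ : AddSubgroup A)
  have h2 := card_Rp (odd_quot hodd H)
  rw [AddSubgroup.card_top, Nat.card_eq_fintype_card, card_quot H, ← h2, ha] at h1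
  have : (2 * Fintype.card (Rp (A ⧸ H)) + 1) * (2 * a + 1) =
    2 * ((2 * a + 1) * Fintype.card (Rp (A ⧸ H)) + a) + 1 := by ring
  omega

theorem card_BH (hodd : Odd (Fintype.card A)) (H : AddSubgroup A) (t a : ℕ)
    (ha : Nat.card H = 2 * a + 1) (ha1 : 1 ≤ a) :
    2 * a * (a + 1) * (BH H t).card ≤ F t (⊤ : AddSubgroup A) := by
  have hodd' := odd_quot hodd H
  have hsurj : Function.Surjective (QuotientAddGroup.mk' H) := QuotientAddGroup.mk'_surjective H
  have hker : Nat.card (QuotientAddGroup.mk' H).ker = 2 * a + 1 := by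
    rw [QuotientAddGroup.ker_mk', ha]
  set n := Fintype.card (Rp (A ⧸ H)) with hn
  have hL : ∀ T : Finset (Rp (A ⧸ H)), (LT (QuotientAddGroup.mk' H) T).card =
      (2 * a + 1) * T.card + a := by
    intro T
    have h1 := card_LT hodd hodd' (QuotientAddGroup.mk' H) hsurj T
    rw [hker] at h1
    have : (2 * T.card + 1) * (2 * a + 1) = 2 * ((2 * a + 1) * T.card + a) + 1 := by ring
    omega
  have hτ : ∀ I ∈ BH H t, ∃ T : Finset (Rp (A ⧸ H)), T.card = (t - 1) / (2 * a + 1) ∧
      1 ≤ T.card ∧ T.card + 1 ≤ n ∧ (2 * a + 1) * T.card + 1 ≤ t ∧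
      t ≤ (2 * a + 1) * T.card + a ∧ I ∈ (LT (QuotientAddGroup.mk' H) T).powerset.filter
        (fun I => t ≤ I.card) := by
    intro I hI
    obtain ⟨-, h1, T, h2, h3, h4, h5⟩ := mem_filter.1 hI
    rw [ha] at h4
    have h6 := card_le_card h5
    rw [hL] at h6
    refine ⟨T, ?_, ?_, ?_, by omega, by omega, mem_filter.2 ⟨mem_powerset.2 h5, h1⟩⟩
    · symm
      rw [Nat.div_eq_iff (by omega)]
      constructor
      · have : T.card * (2 * a + 1) = (2 * a + 1) * T.card := mul_comm _ _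
        omega
      · have : T.card * (2 * a + 1) = (2 * a + 1) * T.card := mul_comm _ _
        omega
    · exact Finset.card_pos.2 (nonempty_iff_ne_empty.2 h2)
    · rw [hn, ← card_univ]
      exact card_lt_card ((subset_univ T).ssubset_of_ne h3)
  rcases (BH H t).eq_empty_or_nonempty with hB | ⟨I0, hI0⟩
  · rw [hB, card_empty, mul_zero]
    exact Nat.zero_le _
  obtain ⟨T0, e1, e2, e3, e4, e5, -⟩ := hτ I0 hI0
  set τ := (t - 1) / (2 * a + 1) with hτdef
  rw [e1] at e2 e3 e4 e5
  have hsub : BH H t ⊆ (powersetCard τ (univ : Finset (Rp (A ⧸ H)))).biUnion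
      (fun T => (LT (QuotientAddGroup.mk' H) T).powerset.filter (fun I => t ≤ I.card)) := by
    intro I hI
    obtain ⟨T, h1, -, -, -, -, h2⟩ := hτ I hI
    exact mem_biUnion.2 ⟨T, mem_powersetCard.2 ⟨subset_univ _, h1⟩, h2⟩
  have hcard : (BH H t).card ≤ n.choose τ *
      ∑ i ∈ range ((2 * a + 1) * τ + a - t + 1), ((2 * a + 1) * τ + a).choose i := by
    refine (card_le_card hsub).trans (card_biUnion_le.trans ?_)
    have h1 : ∀ T ∈ powersetCard τ (univ : Finset (Rp (A ⧸ H))),
        ((LT (QuotientAddGroup.mk' H) T).powerset.filter (fun I => t ≤ I.card)).card ≤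
        ∑ i ∈ range ((2 * a + 1) * τ + a - t + 1), ((2 * a + 1) * τ + a).choose i := by
      intro T hT
      refine card_large _ t _ ?_ e5
      rw [hL, (mem_powersetCard.1 hT).2]
    refine (sum_le_card_nsmul _ _ _ h1).trans (le_of_eq ?_)
    rw [card_powersetCard, card_univ, smul_eq_mul]
  have hmain := main_bound a τ t n ha1 e2 e3 e4 e5
  calc 2 * a * (a + 1) * (BH H t).card ≤ _ := Nat.mul_le_mul_left _ hcard
    _ ≤ _ := hmain
    _ = F t (⊤ : AddSubgroup A) := by
      unfold F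
      rw [card_univ_Rp hodd H a ha]

theorem bad_sub (hodd : Odd (Fintype.card A)) (t : ℕ) {I : Finset (Rp A)} (hI : I ∈ Bad A t) :
    ∃ H : AddSubgroup A, H ≠ ⊥ ∧ I ∈ BH H t := by
  obtain ⟨-, h1, h2, H, h3, h4, h5⟩ := mem_filter.1 hI
  have hsurj : Function.Surjective (QuotientAddGroup.mk' H) := QuotientAddGroup.mk'_surjective H
  have hker : (QuotientAddGroup.mk' H).ker = H := QuotientAddGroup.ker_mk' H
  obtain ⟨T, e1, e2, e3, e4⟩ := bad_of (odd_quot hodd H) (QuotientAddGroup.mk' H) hsurj I t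
    (by rw [hker]; exact h4) (by rw [hker]; exact h5)
  rw [hker] at e2 e4
  refine ⟨H, h3, mem_filter.2 ⟨mem_univ _, h2, T, fun h => ?_, e1, e2, e3⟩⟩
  have h6 := e4 h
  rw [h1, top_le_iff] at h6
  apply h4
  rw [Finset.eq_univ_iff_forall]
  intro x
  exact sub_cl _ _ (mem_hf.2 (by rw [h6]; exact AddSubgroup.mem_top x))

theorem card_bad [IsAddCyclic A] (hodd : Odd (Fintype.card A)) (t : ℕ)
    (hF : 0 < F t (⊤ : AddSubgroup A)) :
    2 * ((Bad A t).card : ℚ) < F t (⊤ : AddSubgroup A) := by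
  have hsub : Bad A t ⊆ (univ.filter fun H : AddSubgroup A => H ≠ ⊥).biUnion fun H => BH H t := by
    intro I hI
    obtain ⟨H, h1, h2⟩ := bad_sub hodd t hI
    exact mem_biUnion.2 ⟨H, mem_filter.2 ⟨mem_univ _, h1⟩, h2⟩
  have h1 : ((Bad A t).card : ℚ) ≤
      ∑ H ∈ univ.filter (fun H : AddSubgroup A => H ≠ ⊥), ((BH H t).card : ℚ) := by
    exact_mod_cast (card_le_card hsub).trans card_biUnion_le
  have h2 : ∀ H ∈ univ.filter (fun H : AddSubgroup A => H ≠ ⊥),
      1 ≤ (pk H).card ∧ Nat.card H = 2 * (pk H).card + 1 := by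
    intro H hH
    have h3 := card_pk hodd H
    refine ⟨?_, h3.symm⟩
    by_contra hcon
    have h4 : Nat.card H = 1 := by omega
    rw [AddSubgroup.card_eq_one] at h4
    exact (mem_filter.1 hH).2 h4
  have hinj : ∀ H ∈ univ.filter (fun H : AddSubgroup A => H ≠ ⊥),
      ∀ H' ∈ univ.filter (fun H : AddSubgroup A => H ≠ ⊥), (pk H).card = (pk H').card → H = H' := by
    intro H hH H' hH' h
    apply card_inj
    rw [(h2 H hH).2, (h2 H' hH').2, h]
  have h3 : ∀ H ∈ univ.filter (fun H : AddSubgroup A => H ≠ ⊥),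
      2 * ((BH H t).card : ℚ) ≤ F t (⊤ : AddSubgroup A) *
        (1 / ((pk H).card * ((pk H).card + 1))) := by
    intro H hH
    obtain ⟨h4, h5⟩ := h2 H hH
    have h6 := card_BH hodd H t _ h5 h4
    have h7 : (2 * (pk H).card * ((pk H).card + 1) * (BH H t).card : ℚ) ≤
      F t (⊤ : AddSubgroup A) := by exact_mod_cast h6
    have h8 : (0 : ℚ) < (pk H).card * ((pk H).card + 1) := by
      have : (0 : ℚ) < (pk H).card := by exact_mod_cast h4
      positivity
    rw [mul_one_div, le_div_iff₀ h8]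
    linarith
  have h4 : ∑ H ∈ univ.filter (fun H : AddSubgroup A => H ≠ ⊥),
      (1 : ℚ) / ((pk H).card * ((pk H).card + 1)) < 1 := by
    have h5 := tele ((univ.filter (fun H : AddSubgroup A => H ≠ ⊥)).image fun H => (pk H).card) (by
      intro a ha
      obtain ⟨K, hK, rfl⟩ := mem_image.1 ha
      exact (h2 K hK).1)
    rwa [sum_image hinj] at h5
  have h5 : 2 * ((Bad A t).card : ℚ) ≤ F t (⊤ : AddSubgroup A) *
      ∑ H ∈ univ.filter (fun H : AddSubgroup A => H ≠ ⊥),
        (1 : ℚ) / ((pk H).card * ((pk H).card + 1)) := by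
    rw [mul_sum]
    refine le_trans ?_ (sum_le_sum h3)
    rw [← mul_sum]
    linarith
  have h6 : (0 : ℚ) < F t (⊤ : AddSubgroup A) := by exact_mod_cast hF
  nlinarith

theorem gen_pair {x : A} (hx : ∀ y : A, y ∈ AddSubgroup.zmultiples x) {j : Rp A}
    (hj : x ∈ pr j.1) : gn ({j} : Finset (Rp A)) = ⊤ := by
  rw [eq_top_iff]
  intro y _
  have h1 : x ∈ gn ({j} : Finset (Rp A)) :=
    AddSubgroup.subset_closure (mem_coe.2 (mem_SI.2 ⟨j, mem_singleton_self j, hj⟩))
  exact (AddSubgroup.zmultiples_le_of_mem h1) (hx y)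

theorem g_two_odd [IsAddCyclic A] (hodd : Odd (Fintype.card A)) (h5 : 5 ≤ Fintype.card A) :
    0 < g 2 (⊤ : AddSubgroup A) := by
  obtain ⟨x, hx⟩ := IsAddCyclic.exists_generator (α := A)
  have hord : addOrderOf x = Fintype.card A := by
    rw [addOrderOf_eq_card_of_forall_mem_zmultiples hx, Nat.card_eq_fintype_card]
  have hne : ∀ r : ℕ, 0 < r → r < 5 → r • x ≠ 0 := by
    intro r hr0 hr h
    have := addOrderOf_dvd_of_nsmul_eq_zero h
    rw [hord] at this
    have := Nat.le_of_dvd hr0 this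
    omega
  have hx0 : x ≠ 0 := by
    have := hne 1 one_pos (by norm_num)
    rwa [one_nsmul] at this
  have hx2 : x + x ≠ 0 := by
    have := hne 2 (by norm_num) (by norm_num)
    rwa [two_nsmul] at this
  have hgen2 : ∀ y : A, y ∈ AddSubgroup.zmultiples (x + x) := by
    have h1 : AddSubgroup.zmultiples (x + x) = ⊤ := by
      apply AddSubgroup.eq_top_of_card_eq
      rw [Nat.card_zmultiples, ← two_nsmul, Nat.Coprime.addOrderOf_nsmul, hord,
        Nat.card_eq_fintype_card]
      rw [hord]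
      exact hodd.coprime_two_right
    intro y
    rw [h1]
    exact AddSubgroup.mem_top y
  obtain ⟨j1, hj1⟩ := cover_pr x hx0
  obtain ⟨j2, hj2⟩ := cover_pr (x + x) hx2
  have hjne : j1 ≠ j2 := by
    rintro rfl
    have h1 : x + x = x ∨ x + x = -x := by
      rcases (mem_pr _ _).1 hj1 with h | h <;> rcases (mem_pr _ _).1 hj2 with h' | h' <;>
        rw [h']
      · exact Or.inl h.symm
      · exact Or.inr (by rw [h])
      · exact Or.inr (by rw [h, neg_neg])
      · exact Or.inl h.symm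
    rcases h1 with h1 | h1
    · exact hx0 (by simpa using h1)
    · apply hne 3 (by norm_num) (by norm_num)
      have : (3 : ℕ) • x = x + x + x := by
        rw [show (3 : ℕ) = 2 + 1 from rfl, add_nsmul, two_nsmul, one_nsmul]
      rw [this, h1, neg_add_cancel]
  refine g_two (by omega) {j1, j2} ?_ ?_
  · intro j hj
    rw [mem_insert, mem_singleton] at hj
    rcases hj with rfl | rfl
    · exact gen_pair hx hj1
    · exact gen_pair hgen2 hj2
  · rw [card_pair hjne]
    have := ArithmeticFunction.abs_moebius_le_one (n := Fintype.card A)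
    rw [abs_le] at this
    push_cast
    linarith

/-- **The signed number does not vanish.** -/
theorem main_sum [IsAddCyclic A] (hodd : Odd (Fintype.card A)) (t : ℕ) (ht : 2 ≤ t)
    (htA : 2 * t + 1 ≤ Fintype.card A) (f : Finset (Rp A) → ℤ) (hf01 : ∀ I, f I = 0 ∨ f I = 1)
    (h0 : ∀ I, ¬ (gn I = ⊤ ∧ t ≤ I.card) → f I = 0)
    (h1 : ∀ I, gn I = ⊤ → t ≤ I.card → I ∉ Bad A t → f I = 1) :
    ∑ I : Finset (Rp A), (-1 : ℤ) ^ I.card * f I ≠ 0 := by
  have hbadsub : Bad A t ⊆ univ.filter (fun I : Finset (Rp A) => gn I = ⊤ ∧ t ≤ I.card) := by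
    intro I hI
    obtain ⟨-, h2, h3, -⟩ := mem_filter.1 hI
    exact mem_filter.2 ⟨mem_univ _, h2, h3⟩
  have hsum : ∑ I : Finset (Rp A), (-1 : ℤ) ^ I.card * f I = g t (⊤ : AddSubgroup A) -
      ∑ I ∈ Bad A t, (-1 : ℤ) ^ I.card * (1 - f I) := by
    have h2 : ∑ I : Finset (Rp A), (-1 : ℤ) ^ I.card * f I =
        ∑ I ∈ univ.filter (fun I : Finset (Rp A) => gn I = ⊤ ∧ t ≤ I.card),
          (-1 : ℤ) ^ I.card * f I := by
      symm
      apply sum_subset (subset_univ _)
      intro I _ hI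
      rw [mem_filter] at hI
      rw [h0 I (fun h => hI ⟨mem_univ _, h⟩), mul_zero]
    have h3 : ∑ I ∈ Bad A t, (-1 : ℤ) ^ I.card * (1 - f I) =
        ∑ I ∈ univ.filter (fun I : Finset (Rp A) => gn I = ⊤ ∧ t ≤ I.card),
          (-1 : ℤ) ^ I.card * (1 - f I) := by
      apply sum_subset hbadsub
      intro I hI hI'
      obtain ⟨-, h4, h5⟩ := mem_filter.1 hI
      rw [h1 I h4 h5 hI', sub_self, mul_zero]
    rw [h2, h3, g, ← sum_sub_distrib]
    refine sum_congr rfl fun I _ => ?_
    ring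
  have herr : |∑ I ∈ Bad A t, (-1 : ℤ) ^ I.card * (1 - f I)| ≤ (Bad A t).card := by
    refine (abs_sum_le_sum_abs _ _).trans ?_
    have : ∀ I ∈ Bad A t, |(-1 : ℤ) ^ I.card * (1 - f I)| ≤ 1 := by
      intro I _
      rw [abs_mul, abs_pow, abs_neg, abs_one, one_pow, one_mul]
      rcases hf01 I with h | h <;> rw [h] <;> norm_num
    refine (sum_le_card_nsmul _ _ _ this).trans (le_of_eq ?_)
    simp
  rcases (by omega : t = 2 ∨ 3 ≤ t) with rfl | ht3
  · have hb : Bad A 2 = ∅ := by
      rw [eq_empty_iff_forall_notMem]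
      intro I hI
      obtain ⟨H, h2, h3⟩ := bad_sub hodd 2 hI
      obtain ⟨-, -, T, h4, -, h5, -⟩ := mem_filter.1 h3
      have h6 := card_pk hodd H
      have h7 : 1 ≤ T.card := Finset.card_pos.2 (nonempty_iff_ne_empty.2 h4)
      have h8 : 1 ≤ (pk H).card := by
        by_contra hcon
        have h9 : Nat.card H = 1 := by omega
        rw [AddSubgroup.card_eq_one] at h9
        exact h2 h9
      have h9 : Nat.card H * 1 ≤ Nat.card H * T.card := Nat.mul_le_mul_left _ h7
      omega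
    rw [hsum, hb, sum_empty, sub_zero]
    exact (g_two_odd hodd (by omega)).ne'
  · have hF : 0 < F t (⊤ : AddSubgroup A) := by
      unfold F
      apply Nat.choose_pos
      have := card_pk hodd (⊤ : AddSubgroup A)
      rw [AddSubgroup.card_top, Nat.card_eq_fintype_card] at this
      omega
    have hb := card_bad hodd t hF
    have hg := g_top hodd t ht3
    intro hzero
    rw [hsum, sub_eq_zero] at hzero
    rw [← hzero] at herr
    have h2 : |(g t (⊤ : AddSubgroup A) : ℚ)| ≤ (Bad A t).card := by exact_mod_cast herr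
    have h3 : ((-1) ^ t * g t (⊤ : AddSubgroup A) : ℚ) ≤ |(g t (⊤ : AddSubgroup A) : ℚ)| := by
      refine (le_abs_self _).trans (le_of_eq ?_)
      rw [abs_mul, abs_pow, abs_neg, abs_one, one_pow, one_mul]
    linarith

end

end Pool.Agent.Q6.KV
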