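import Mathlib
import Pool.Agent.W332.Kc.Cone
import Pool.Agent.W332.Kd.Reg3
import Pool.Agent.TH669.KS.Cycles
import Pool.Agent.Q6.KV.Bad

set_option autoImplicit false
set_option linter.unusedSectionVars false

/-!
# Connectivity and Hamiltonian cycles of Cayley graphs and of their cones
-/

namespace Pool.Agent.Q6.KV

open Finset
open Pool.Agent.W332.Kd (cay Sy cay_adj Rp pr mem_pr mem_Rp pr_sy pr_disj cover_pr part_pr Part)
open Pool.Agent.W332.Kc (coneO)
open Pool.Agent.TH669.KS (HasC)
open Pool.Agent.H119R2.Kp (PV GP)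

section

variable {A : Type} [AddCommGroup A] [Fintype A] [DecidableEq A]

/-- connected Cayley graphs come from generating sets -/
theorem gn_of_conn (I : Finset (Rp A)) (h : (cay (SI I)).Connected) : gn I = ⊤ := by
  rw [eq_top_iff]
  intro x _
  obtain ⟨p⟩ := h.preconnected 0 x
  have key : ∀ (u v : A), (cay (SI I)).Walk u v → v - u ∈ gn I := by
    intro u v w
    induction w with
    | nil =>
      rw [sub_self]
      exact (gn I).zero_mem
    | @cons a b c hadj _ ih =>
      have h1 : b - a ∈ gn I :=
        AddSubgroup.subset_closure (mem_coe.2 ((cay_adj (SI_sy I) a b).1 hadj))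
      have h2 := (gn I).add_mem ih h1
      rwa [sub_add_sub_cancel] at h2
  have := key 0 x p
  rwa [sub_zero] at this

theorem conn_of_VC {V : Type} {k : ℕ} (hk : 1 ≤ k) {G : SimpleGraph V} (h : VC k G) :
    G.Connected := by
  have h1 := h.2 ∅ (by rw [Set.ncard_empty]; omega)
  rw [Set.compl_empty] at h1
  exact (SimpleGraph.induceUnivIso G).connected_iff.1 h1

theorem VC_mono {V : Type} {k l : ℕ} (hkl : k ≤ l) {G : SimpleGraph V} (h : VC l G) : VC k G :=
  ⟨hkl.trans_lt h.1, fun X hX => h.2 X (hX.trans_le hkl)⟩

/-- good sets of pairs give `k`-connected graphs -/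
theorem VC_of_good (hodd : Odd (Fintype.card A)) (k t : ℕ) (hkt : k ≤ 2 * t) (I : Finset (Rp A))
    (h1 : gn I = ⊤) (h2 : t ≤ I.card) (h3 : I ∉ Bad A t) : VC k (cay (SI I)) := by
  refine VC_cay _ (SI_sy I) k ?_ ?_
  · rw [card_SI hodd]
    omega
  · intro H hH hcl
    by_contra hcon
    apply h3
    exact mem_Bad.2 ⟨h1, h2, H, hH, hcl, by omega⟩

theorem cyc_list (I : Finset (Rp A)) (h : gn I = ⊤) (hA : 3 ≤ Fintype.card A) :
    ∃ (L : List A) (α β : A), L.Nodup ∧ L.IsChain (cay (SI I)).Adj ∧ L.head? = some α ∧
      L.getLast? = some β ∧ (cay (SI I)).Adj β α ∧ L.length = Fintype.card A := by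
  obtain ⟨L, α, β, hc, hl⟩ := Pool.Agent.TH669.KS.ham_cycle (SI I : Set A) h
    (by rw [Nat.card_eq_fintype_card]; exact hA)
  have hstp : ∀ x y : A, Pool.Agent.TH669.KP.Stp (SI I : Set A) x y → (cay (SI I)).Adj x y := by
    intro x y h
    rw [cay_adj (SI_sy I)]
    rcases h with h | h
    · exact mem_coe.1 h
    · have := (SI_sy I).neg _ (mem_coe.1 h)
      rwa [neg_sub] at this
  exact ⟨L, α, β, hc.nd, hc.ch.imp fun x y h => hstp x y h, hc.hd, hc.lt, hstp _ _ hc.cl,
    by rw [hl, Nat.card_eq_fintype_card]⟩

theorem ham_cay (I : Finset (Rp A)) (h : gn I = ⊤) (hA : 3 ≤ Fintype.card A) :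
    HasC (cay (SI I)) (Fintype.card A) := by
  obtain ⟨L, α, β, h1, h2, h3, h4, h5, h6⟩ := cyc_list I h hA
  exact Pool.Agent.TH669.KS.hasC_of_list _ _ L h6.ge h1 h2 h3 h4 h5

theorem coneO_none_some {G : SimpleGraph A} (x : A) : (coneO G).Adj none (some x) :=
  ⟨fun h => (by cases h), fun _ _ h => (by cases h)⟩

theorem coneO_some_some {G : SimpleGraph A} {x y : A} : (coneO G).Adj (some x) (some y) ↔
    G.Adj x y := by
  constructor
  · intro h
    exact h.2 x y rfl rfl
  · intro h
    refine ⟨fun h' => ?_, fun x' y' hx hy => ?_⟩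
    · cases h'
      exact G.loopless.irrefl _ h
    · cases hx
      cases hy
      exact h

theorem ham_cone (I : Finset (Rp A)) (h : gn I = ⊤) (hA : 3 ≤ Fintype.card A) :
    HasC (coneO (cay (SI I))) (Fintype.card A + 1) := by
  obtain ⟨L, α, β, h1, h2, h3, h4, h5, h6⟩ := cyc_list I h hA
  have hne : L ≠ [] := by
    rintro rfl
    simp at h3
  obtain ⟨x, L', rfl⟩ := List.exists_cons_of_ne_nil hne
  refine Pool.Agent.TH669.KS.hasC_of_list _ _ (none :: (x :: L').map some) ?_ (α := none)
    (β := some β) ?_ ?_ rfl ?_ ?_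
  · simp only [List.length_cons, List.length_map] at h6 ⊢
    omega
  · rw [List.nodup_cons]
    refine ⟨by simp, (List.nodup_map_iff (Option.some_injective A)).2 h1⟩
  · rw [List.map_cons, List.isChain_cons_cons]
    refine ⟨coneO_none_some x, ?_⟩
    rw [← List.map_cons, List.isChain_map]
    exact h2.imp fun a b hab => coneO_some_some.2 hab
  · rw [List.getLast?_cons, List.getLast?_map, h4]
    rfl
  · exact (coneO_none_some β).symm

/-- the connectivity of a cone -/
theorem VC_cone {k : ℕ} {G : SimpleGraph A} (hk : 1 ≤ k) (h : VC (k - 1) G) : VC k (coneO G) := by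
  have hcard : Nat.card (Option A) = Nat.card A + 1 := by
    rw [Nat.card_eq_fintype_card, Nat.card_eq_fintype_card, Fintype.card_option]
  refine ⟨by rw [hcard]; have := h.1; omega, fun X hX => ?_⟩
  by_cases hn : (none : Option A) ∈ X
  · -- the apex is removed
    set Y : Set A := some ⁻¹' X with hY
    have hXY : X = insert none (some '' Y) := by
      ext o
      cases o with
      | none => simp [hn]
      | some a => simp [hY]
    have hYc : Y.ncard < k - 1 := by
      have h1 : X.ncard = Y.ncard + 1 := by
        rw [hXY, Set.ncard_insert_of_notMem (by simp) (Set.toFinite _),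
          Set.ncard_image_of_injective _ (Option.some_injective A)]
      omega
    have h2 := h.2 Y hYc
    let e : (Yᶜ : Set A) ≃ (Xᶜ : Set (Option A)) :=
      { toFun := fun a => ⟨some a.1, fun h' => a.2 h'⟩
        invFun := fun o => ⟨o.1.get (by
            rcases ho : o.1 with _ | a
            · exact absurd hn (ho ▸ o.2)
            · rfl), by
            intro h'
            apply o.2
            have : some (o.1.get _) ∈ X := h'
            rwa [Option.some_get] at this⟩
        left_inv := fun a => rfl
        right_inv := fun o => by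
          apply Subtype.ext
          exact Option.some_get _ }
    let φ : (G.induce Yᶜ) ≃g ((coneO G).induce Xᶜ) :=
      { toEquiv := e
        map_rel_iff' := by
          intro a b
          exact coneO_some_some }
    exact φ.connected_iff.1 h2
  · -- the apex remains
    have : Nonempty (Xᶜ : Set (Option A)) := ⟨⟨none, hn⟩⟩
    refine ⟨fun u v => ?_⟩
    have key : ∀ w : (Xᶜ : Set (Option A)), ((coneO G).induce Xᶜ).Reachable ⟨none, hn⟩ w := by
      rintro ⟨w, hw⟩
      cases w with
      | none => exact SimpleGraph.Reachable.refl _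
      | some a =>
        apply SimpleGraph.Adj.reachable
        rw [SimpleGraph.induce_adj]
        exact coneO_none_some a
    exact (key u).symm.trans (key v)

theorem conn_of_cone {G : SimpleGraph A} (h : VC 2 (coneO G)) : G.Connected := by
  have h1 := h.2 {none} (by rw [Set.ncard_singleton]; omega)
  let e : A ≃ (({none} : Set (Option A))ᶜ : Set (Option A)) :=
    { toFun := fun a => ⟨some a, by simp⟩
      invFun := fun o => o.1.get (by
          rcases ho : o.1 with _ | a
          · exact absurd ho o.2
          · rfl)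
      left_inv := fun a => rfl
      right_inv := fun o => by
        apply Subtype.ext
        exact Option.some_get _ }
  let φ : G ≃g ((coneO G).induce ({none} : Set (Option A))ᶜ) :=
    { toEquiv := e
      map_rel_iff' := by
        intro a b
        exact coneO_some_some }
  exact φ.connected_iff.2 h1

theorem nbr_cone (G : SimpleGraph A) (x : A) :
    ((coneO G).neighborSet (some x)).ncard = (G.neighborSet x).ncard + 1 := by
  have : (coneO G).neighborSet (some x) = insert none (some '' G.neighborSet x) := by
    ext o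
    cases o with
    | none =>
      simp only [SimpleGraph.mem_neighborSet, Set.mem_insert_iff, true_or, iff_true]
      exact (coneO_none_some x).symm
    | some a =>
      rw [SimpleGraph.mem_neighborSet, coneO_some_some]
      simp
  rw [this, Set.ncard_insert_of_notMem (by simp) (Set.toFinite _),
    Set.ncard_image_of_injective _ (Option.some_injective A)]

end

/-! ### transport of the property -/

section

variable {n : ℕ} {P : SimpleGraph (Fin n) → Prop}

theorem nbr_iso {V W : Type} {G : SimpleGraph V} {G' : SimpleGraph W} (φ : G ≃g G') (v : V) :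
    (G'.neighborSet (φ v)).ncard = (G.neighborSet v).ncard := by
  have : G'.neighborSet (φ v) = φ '' G.neighborSet v := by
    ext w
    constructor
    · intro h
      refine ⟨φ.symm w, ?_, φ.apply_symm_apply w⟩
      rw [SimpleGraph.mem_neighborSet] at h ⊢
      rw [← φ.map_adj_iff, φ.apply_symm_apply]
      exact h
    · rintro ⟨u, hu, rfl⟩
      exact φ.map_adj_iff.2 hu
  rw [this, Set.ncard_image_of_injective _ φ.injective]

/-- graphs between -/
theorem PV_low {k : ℕ} (hlow : ∀ G : SimpleGraph (Fin n), VC k G →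
    (SimpleGraph.cycleGraph n).IsContained G → P G) {V : Type} (e : V ≃ Fin n)
    (G : SimpleGraph V) (h1 : VC k G) (h2 : HasC G n) : PV P V G := by
  refine ⟨e, hlow _ ?_ ?_⟩
  · exact h1.iso (SimpleGraph.Iso.map e G)
  · have h3 : HasC (G.map e.toEmbedding) n :=
      h2.map e e.injective (fun u v h => (SimpleGraph.Iso.map e G).map_adj_iff.2 h)
    obtain ⟨t, ht, hc⟩ := h3
    have h4 : t ≤ n := by
      obtain ⟨c⟩ := hc
      have := Fintype.card_le_of_injective c c.injective
      simpa using this
    obtain rfl : t = n := le_antisymm h4 ht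
    exact hc

theorem PV_up {k : ℕ} (hup : ∀ G : SimpleGraph (Fin n), P G →
    VC 2 G ∧ ∀ v, k ≤ (G.neighborSet v).ncard) {V : Type} (G : SimpleGraph V)
    (h : PV P V G) : VC 2 G ∧ ∀ v, k ≤ (G.neighborSet v).ncard := by
  obtain ⟨e, he⟩ := h
  obtain ⟨h1, h2⟩ := hup _ he
  refine ⟨h1.iso (SimpleGraph.Iso.map e G).symm, fun v => ?_⟩
  rw [← nbr_iso (SimpleGraph.Iso.map e G) v]
  exact h2 _

end

/-! ### the relations -/

section

variable {n : ℕ} {P : SimpleGraph (Fin n) → Prop}

open Classical in
/-- relation for circulant graphs -/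
theorem rel_circ (hn : 2 ≤ n) (hP : GP n (n.choose 2 - 1) P) [NeZero n] :
    ∑ I : Finset (Rp (ZMod n)), (-1 : ℤ) ^ I.card *
      (if PV P (ZMod n) (cay (SI I)) then 1 else 0) = 0 := by
  have : Fact (Nat.Prime 2) := ⟨Nat.prime_two⟩
  refine Pool.Agent.W332.Kd.relC hn hP (ZMod.card n) 2 (ι := Empty)
    (fun i => i.elim) (Pool.Agent.W332.Kd.trl 1) (fun i => i.elim) (fun i => i.elim)
    (fun i => i.elim) (fun j : Rp (ZMod n) => pr j.1) part_pr (fun _ i => i.elim) ?_ ?_
  · intro j u v h
    change (v + 1) - (u + 1) ∈ _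
    rwa [add_sub_add_right_eq_sub]
  · have hgen : ∀ x : ZMod n, Pool.Agent.W332.Kd.trl x ∈ Subgroup.closure
        (insert (Pool.Agent.W332.Kd.trl 1) (Set.range fun i : Empty => i.elim)) := by
      intro x
      have h : x = x.val • (1 : ZMod n) := by
        rw [nsmul_eq_mul, mul_one, ZMod.natCast_zmod_val]
      rw [h, Pool.Agent.W332.Kd.trl_nsmul]
      exact Subgroup.pow_mem _ (Subgroup.subset_closure (Set.mem_insert _ _)) _
    intro j u v u' v' h h'
    rw [mem_pr] at h h'
    have hcase : v' - u' = v - u ∨ v' - u' = -(v - u) := by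
      rcases h with h | h <;> rcases h' with h' | h' <;> rw [h, h']
      · exact Or.inl rfl
      · exact Or.inr rfl
      · exact Or.inr (neg_neg _).symm
      · exact Or.inl rfl
    rcases hcase with h1 | h1
    · refine ⟨Pool.Agent.W332.Kd.trl (u' - u), hgen _, Or.inl ⟨?_, ?_⟩⟩
      · change u + (u' - u) = u'
        abel
      · change v + (u' - u) = v'
        have : v' = (v' - u') + u' := by abel
        rw [this, h1]
        abel
    · refine ⟨Pool.Agent.W332.Kd.trl (v' - u), hgen _, Or.inr ⟨?_, ?_⟩⟩
      · change u + (v' - u) = v'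
        abel
      · change v + (v' - u) = u'
        have : v' = (v' - u') + u' := by abel
        rw [this, h1]
        abel

end

section

variable {m : ℕ} {P : SimpleGraph (Fin (m + 1)) → Prop}

open Classical in
/-- relation for cones over circulant graphs -/
theorem rel_cone (hm : 2 ≤ m) (hP : GP (m + 1) ((m + 1).choose 2 - 1) P) [NeZero m]
    (hisol : ∀ G : SimpleGraph (Fin (m + 1)), (∃ v, ∀ w, ¬ G.Adj v w) → ¬ P G) :
    ∑ I : Finset (Rp (ZMod m)), (-1 : ℤ) ^ I.card *
      (if PV P (Option (ZMod m)) (coneO (cay (SI I))) then 1 else 0) = 0 := by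
  have : Fact (Nat.Prime 2) := ⟨Nat.prime_two⟩
  have hgen : ∀ x : ZMod m, Pool.Agent.W332.Kd.trl x ∈ Subgroup.closure
      (insert (Pool.Agent.W332.Kd.trl 1) (Set.range fun i : Empty => i.elim)) := by
    intro x
    have h : x = x.val • (1 : ZMod m) := by
      rw [nsmul_eq_mul, mul_one, ZMod.natCast_zmod_val]
    rw [h, Pool.Agent.W332.Kd.trl_nsmul]
    exact Subgroup.pow_mem _ (Subgroup.subset_closure (Set.mem_insert _ _)) _
  refine Pool.Agent.W332.Kc.relCone hm hP hisol (ZMod.card m) 2 (ι := Empty)
    (fun i => i.elim) (Pool.Agent.W332.Kd.trl 1) (fun i => i.elim) (fun i => i.elim)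
    (fun i => i.elim) ?_ (fun j : Rp (ZMod m) => pr j.1) part_pr (fun _ i => i.elim) ?_ ?_
  · intro x y
    refine ⟨Pool.Agent.W332.Kd.trl (y - x), hgen _, ?_⟩
    change x + (y - x) = y
    abel
  · intro j u v h
    change (v + 1) - (u + 1) ∈ _
    rwa [add_sub_add_right_eq_sub]
  · intro j u v u' v' h h'
    rw [mem_pr] at h h'
    have hcase : v' - u' = v - u ∨ v' - u' = -(v - u) := by
      rcases h with h | h <;> rcases h' with h' | h' <;> rw [h, h']
      · exact Or.inl rfl
      · exact Or.inr rfl
      · exact Or.inr (neg_neg _).symm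
      · exact Or.inl rfl
    rcases hcase with h1 | h1
    · refine ⟨Pool.Agent.W332.Kd.trl (u' - u), hgen _, Or.inl ⟨?_, ?_⟩⟩
      · change u + (u' - u) = u'
        abel
      · change v + (u' - u) = v'
        have : v' = (v' - u') + u' := by abel
        rw [this, h1]
        abel
    · refine ⟨Pool.Agent.W332.Kd.trl (v' - u), hgen _, Or.inr ⟨?_, ?_⟩⟩
      · change u + (v' - u) = v'
        abel
      · change v + (v' - u) = u'
        have : v' = (v' - u') + u' := by abel
        rw [this, h1]
        abel

end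

end Pool.Agent.Q6.KV
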