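import Mathlib
import Pool.Agent.W332.Kd.Thr
import Pool.Agent.Q6.KV.Graph

set_option autoImplicit false
set_option linter.unusedSectionVars false

/-!
# Properties between high connectivity and large minimum degree
-/

namespace Pool.Agent.Q6.KV

open Finset
open Pool.Agent.W332.Kd (cay Sy cay_adj Rp pr mem_pr mem_Rp pr_sy pr_disj cover_pr part_pr Part)
open Pool.Agent.W332.Kc (coneO)
open Pool.Agent.TH669.KS (HasC)
open Pool.Agent.H119R2.Kp (PV GP)

/-! ### cyclic groups of even order, three-connectivity -/

section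

open Classical

variable {A : Type} [AddCommGroup A] [Fintype A] [DecidableEq A]

theorem g_two_even [IsAddCyclic A] (heven : Even (Fintype.card A)) (h4 : 4 ≤ Fintype.card A) :
    0 < g 2 (⊤ : AddSubgroup A) := by
  obtain ⟨x, hx⟩ := IsAddCyclic.exists_generator (α := A)
  have hord : addOrderOf x = Fintype.card A := by
    rw [addOrderOf_eq_card_of_forall_mem_zmultiples hx, Nat.card_eq_fintype_card]
  have hne : ∀ r : ℕ, 0 < r → r < Fintype.card A → r • x ≠ 0 := by
    intro r hr0 hr h
    have := addOrderOf_dvd_of_nsmul_eq_zero h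
    rw [hord] at this
    have := Nat.le_of_dvd hr0 this
    omega
  have hx0 : x ≠ 0 := by
    have := hne 1 one_pos (by omega)
    rwa [one_nsmul] at this
  obtain ⟨j1, hj1⟩ := cover_pr x hx0
  have hone : 0 ≤ ArithmeticFunction.moebius (Fintype.card A) → 0 < g 2 (⊤ : AddSubgroup A) := by
    intro h
    refine g_two (by omega) {j1} ?_ ?_
    · intro j hj
      rw [mem_singleton] at hj
      subst hj
      exact gen_pair hx hj1
    · rw [card_singleton]
      push_cast
      linarith
  by_cases hsq : Squarefree (Fintype.card A)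
  swap
  · exact hone (ArithmeticFunction.moebius_eq_zero_of_not_squarefree hsq).ge
  obtain ⟨m, hm⟩ := heven
  have hm2 : Fintype.card A = 2 * m := by omega
  have hmodd : Odd m := by
    rw [← Nat.not_even_iff_odd]
    rintro ⟨r, hr⟩
    rw [hm2] at hsq
    have : IsUnit (2 : ℕ) := hsq 2 ⟨r, by omega⟩
    rw [Nat.isUnit_iff] at this
    omega
  rcases (by omega : m = 2 ∨ m = 3 ∨ 4 ≤ m) with rfl | rfl | hm4
  · exact absurd hmodd (by decide)
  · apply hone
    rw [hm2, ArithmeticFunction.isMultiplicative_moebius.map_mul_of_coprime (by norm_num),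
      ArithmeticFunction.moebius_apply_prime Nat.prime_two,
      ArithmeticFunction.moebius_apply_prime Nat.prime_three]
    norm_num
  · have hm5 : 5 ≤ m := by
      obtain ⟨r, hr⟩ := hmodd
      omega
    have hcop : (Fintype.card A).Coprime (m + 2) := by
      rw [hm2]
      have h1 : Nat.Coprime 2 (m + 2) := by
        rw [Nat.coprime_two_left]
        exact hmodd.add_even (by decide)
      have h2 : Nat.Coprime m (m + 2) := by
        rw [Nat.coprime_self_add_right]
        exact hmodd.coprime_two_right
      exact h1.mul_left h2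
    have hgen2 : ∀ y : A, y ∈ AddSubgroup.zmultiples ((m + 2) • x) := by
      have h1 : AddSubgroup.zmultiples ((m + 2) • x) = ⊤ := by
        apply AddSubgroup.eq_top_of_card_eq
        rw [Nat.card_zmultiples, Nat.Coprime.addOrderOf_nsmul, hord, Nat.card_eq_fintype_card]
        rw [hord]
        exact hcop
      intro y
      rw [h1]
      exact AddSubgroup.mem_top y
    obtain ⟨j2, hj2⟩ := cover_pr ((m + 2) • x) (hne _ (by omega) (by omega))
    have hjne : j1 ≠ j2 := by
      rintro rfl
      have h1 : (m + 2) • x = x ∨ (m + 2) • x = -x := by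
        rcases (mem_pr _ _).1 hj1 with h | h <;> rcases (mem_pr _ _).1 hj2 with h' | h' <;>
          rw [h']
        · exact Or.inl h.symm
        · exact Or.inr (by rw [h])
        · exact Or.inr (by rw [h, neg_neg])
        · exact Or.inl h.symm
      rcases h1 with h1 | h1
      · apply hne (m + 1) (by omega) (by omega)
        have h2 : (m + 1) • x + x = (m + 2) • x := by
          rw [← succ_nsmul]
        rw [h1] at h2
        simpa using h2
      · apply hne (m + 3) (by omega) (by omega)
        have h2 : (m + 2) • x + x = (m + 3) • x := by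
          rw [← succ_nsmul]
        rw [← h2, h1, neg_add_cancel]
    refine g_two (by omega) {j1, j2} ?_ ?_
    · intro j hj
      rw [mem_insert, mem_singleton] at hj
      rcases hj with rfl | rfl
      · exact gen_pair hx hj1
      · exact gen_pair hgen2 hj2
    · rw [card_pair hjne]
      have := ArithmeticFunction.abs_moebius_le_one (n := Fintype.card A)
      rw [abs_le] at this
      push_cast
      linarith

theorem card_SI_three [IsAddCyclic A] (I : Finset (Rp A)) (hI : 2 ≤ I.card) :
    3 ≤ (SI I).card := by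
  obtain ⟨i, hi, j, hj, hij⟩ := Finset.one_lt_card.1 hI
  have hsub : pr i.1 ∪ pr j.1 ⊆ SI I := by
    intro x hx
    rcases mem_union.1 hx with hx | hx
    · exact mem_SI.2 ⟨i, hi, hx⟩
    · exact mem_SI.2 ⟨j, hj, hx⟩
  have hdis : Disjoint (pr i.1) (pr j.1) := part_pr.disj i j hij
  have h1 := card_le_card hsub
  rw [card_union_of_disjoint hdis] at h1
  have hpos : ∀ l : Rp A, 1 ≤ (pr l.1).card := fun l => card_pos.2 ⟨_, self_mem_pr _⟩
  by_contra hcon
  have hone : ∀ l : Rp A, (pr l.1).card = 1 → l.1 ∈ ks A 2 := by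
    intro l hl
    rw [mem_ks, two_nsmul]
    rw [card_eq_one] at hl
    obtain ⟨y, hy⟩ := hl
    have h2 : l.1 ∈ pr l.1 := self_mem_pr _
    have h3 : -l.1 ∈ pr l.1 := (mem_pr _ _).2 (Or.inr rfl)
    rw [hy, mem_singleton] at h2 h3
    have h4 : -l.1 = l.1 := by rw [h3, ← h2]
    nth_rewrite 1 [← h4]
    exact neg_add_cancel _
  have hi1 : (pr i.1).card = 1 := by
    have := hpos i
    have := hpos j
    omega
  have hj1 : (pr j.1).card = 1 := by
    have := hpos i
    have := hpos j
    omega
  have hi0 := ((mem_Rp _).1 i.2).1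
  have hj0 := ((mem_Rp _).1 j.2).1
  have h2 : ({0, i.1, j.1} : Finset A) ⊆ hf (ks A 2) := by
    intro x hx
    rw [mem_insert, mem_insert, mem_singleton] at hx
    rw [mem_hf]
    rcases hx with rfl | rfl | rfl
    · exact (ks A 2).zero_mem
    · exact hone i hi1
    · exact hone j hj1
  have h3 := card_le_card h2
  rw [hf_card, card_ks] at h3
  have h4 : ({0, i.1, j.1} : Finset A).card = 3 := by
    rw [card_eq_three]
    exact ⟨0, i.1, j.1, hi0.symm, hj0.symm, fun h => hij (Subtype.ext h), rfl⟩
  rw [h4] at h3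
  have h5 : (Nat.card A).gcd 2 ≤ 2 := Nat.le_of_dvd (by norm_num) (Nat.gcd_dvd_right _ _)
  omega

theorem VC_three [IsAddCyclic A] (I : Finset (Rp A)) (hI : 2 ≤ I.card) (hgn : gn I = ⊤) :
    VC 3 (cay (SI I)) := by
  refine VC_cay _ (SI_sy I) 3 (card_SI_three I hI) ?_
  intro H hH hcl
  by_contra hcon
  set φ := QuotientAddGroup.mk' H with hφ
  have hsurj : Function.Surjective φ := QuotientAddGroup.mk'_surjective H
  have hker : φ.ker = H := QuotientAddGroup.ker_mk' H
  have hkm : ∀ x, φ x = 0 ↔ x ∈ H := fun x => by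
    have h := AddMonoidHom.mem_ker (f := φ) (x := x)
    rw [hker] at h
    exact h.symm
  set Y : Finset (A ⧸ H) := insert 0 ((SI I).image φ) with hY
  have hclY : ∀ x, x ∈ cl (SI I) (hf H) ↔ φ x ∈ Y := by
    intro x
    rw [mem_cl, hY, mem_insert, mem_image]
    constructor
    · rintro ⟨c, hc, rfl | h⟩
      · exact Or.inl ((hkm _).2 (mem_hf.1 hc))
      · refine Or.inr ⟨x - c, h, ?_⟩
        rw [map_sub, (hkm c).2 (mem_hf.1 hc), sub_zero]
    · rintro (h | ⟨s, hs, h⟩)
      · exact ⟨x, mem_hf.2 ((hkm x).1 h), Or.inl rfl⟩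
      · refine ⟨x - s, mem_hf.2 ((hkm _).1 ?_), Or.inr ?_⟩
        · rw [map_sub, h, sub_self]
        · rwa [sub_sub_cancel]
  have hcard : (cl (SI I) (hf H)).card = Y.card * Nat.card H := by
    have h1 := card_preim φ hsurj Y
    rw [hker] at h1
    rw [← h1]
    congr 1
    ext x
    rw [hclY, mem_filter]
    exact ⟨fun h => ⟨mem_univ _, h⟩, fun h => h.2⟩
  rw [hcard, hf_card] at hcon
  have hH2 : 2 ≤ Nat.card H := by
    have h1 : Nat.card H ≠ 1 := fun h => hH (AddSubgroup.card_eq_one.1 h)
    have h2 : 0 < Nat.card H := Nat.card_pos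
    omega
  have htop : ∀ K : AddSubgroup (A ⧸ H), (∀ s ∈ SI I, φ s ∈ K) → ∀ x : A, φ x ∈ K := by
    intro K hK x
    have h1 : gn I ≤ K.comap φ := by
      unfold gn
      rw [AddSubgroup.closure_le]
      intro s hs
      exact hK s (mem_coe.1 hs)
    rw [hgn] at h1
    exact h1 (AddSubgroup.mem_top x)
  have hY2 : 2 ≤ Y.card := by
    by_contra hY2
    apply hcl
    rw [Finset.eq_univ_iff_forall]
    intro x
    rw [hclY]
    have h1 : Y.card ≤ 1 := by omega
    have h2 : ∀ y ∈ Y, y = 0 := fun y hy => card_le_one.1 h1 y hy 0 (mem_insert_self _ _)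
    have h3 := htop ⊥ (fun s hs => by
      rw [AddSubgroup.mem_bot]
      exact h2 _ (mem_insert_of_mem (mem_image_of_mem φ hs))) x
    rw [AddSubgroup.mem_bot] at h3
    rw [h3]
    exact mem_insert_self _ _
  have h1 : 2 * Nat.card H ≤ Y.card * Nat.card H := Nat.mul_le_mul_right _ hY2
  have hH2' : Nat.card H = 2 := by omega
  rw [hH2'] at hcon
  have hYc : Y.card = 2 := by omega
  obtain ⟨q, hq, hq0⟩ : ∃ q ∈ Y, q ≠ 0 := by
    by_contra h
    push Not at h
    have : Y.card ≤ 1 := card_le_one.2 fun a ha b hb => by rw [h a ha, h b hb]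
    omega
  have hYq : ∀ y ∈ Y, y = 0 ∨ y = q := by
    intro y hy
    by_contra h
    push Not at h
    have h2 : ({0, q, y} : Finset (A ⧸ H)) ⊆ Y := by
      intro z hz
      rw [mem_insert, mem_insert, mem_singleton] at hz
      rcases hz with rfl | rfl | rfl
      · exact mem_insert_self _ _
      · exact hq
      · exact hy
    have h3 := card_le_card h2
    have h4 : ({0, q, y} : Finset (A ⧸ H)).card = 3 := by
      rw [card_eq_three]
      exact ⟨0, q, y, hq0.symm, h.1.symm, h.2.symm, rfl⟩
    omega
  have hqneg : q + q = 0 := by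
    have h2 : q ∈ (SI I).image φ := by
      rcases mem_insert.1 hq with h | h
      · exact absurd h hq0
      · exact h
    obtain ⟨s, hs, hsq⟩ := mem_image.1 h2
    have h3 : -q ∈ Y := by
      refine mem_insert_of_mem (mem_image.2 ⟨-s, (SI_sy I).neg s hs, ?_⟩)
      rw [map_neg, hsq]
    rcases hYq _ h3 with h4 | h4
    · exact absurd (neg_eq_zero.1 h4) hq0
    · nth_rewrite 1 [← h4]
      exact neg_add_cancel q
  apply hcl
  rw [Finset.eq_univ_iff_forall]
  intro x
  rw [hclY]
  let K : AddSubgroup (A ⧸ H) :=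
    { carrier := {y | y = 0 ∨ y = q}
      zero_mem' := Or.inl rfl
      add_mem' := by
        rintro a b (rfl | rfl) (rfl | rfl)
        · exact Or.inl (add_zero 0)
        · exact Or.inr (zero_add _)
        · exact Or.inr (add_zero _)
        · exact Or.inl hqneg
      neg_mem' := by
        rintro a (rfl | rfl)
        · exact Or.inl neg_zero
        · exact Or.inr (neg_eq_of_add_eq_zero_left hqneg) }
  have h3 : φ x ∈ K := htop K (fun s hs => hYq _ (mem_insert_of_mem (mem_image_of_mem φ hs))) x
  rcases h3 with h3 | h3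
  · rw [h3]
    exact mem_insert_self _ _
  · rw [h3]
    exact hq

theorem deg_cay (I : Finset (Rp A)) (v : A) :
    ((cay (SI I)).neighborSet v).ncard = (SI I).card :=
  Pool.Agent.W332.Kd.cay_Reg (SI_sy I) v

theorem sum_even [IsAddCyclic A] (heven : Even (Fintype.card A)) (h4 : 4 ≤ Fintype.card A)
    (f : Finset (Rp A) → ℤ)
    (h0 : ∀ I, ¬ (gn I = ⊤ ∧ 2 ≤ I.card) → f I = 0)
    (h1 : ∀ I, gn I = ⊤ → 2 ≤ I.card → f I = 1) :
    ∑ I : Finset (Rp A), (-1 : ℤ) ^ I.card * f I ≠ 0 := by
  have h2 : ∑ I : Finset (Rp A), (-1 : ℤ) ^ I.card * f I = g 2 (⊤ : AddSubgroup A) := by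
    unfold g
    rw [← Finset.sum_subset (subset_univ (univ.filter (fun I : Finset (Rp A) =>
      gn I = ⊤ ∧ 2 ≤ I.card)))]
    · refine sum_congr rfl fun I hI => ?_
      obtain ⟨-, h3, h4⟩ := mem_filter.1 hI
      rw [h1 I h3 h4, mul_one]
    · intro I _ hI
      rw [mem_filter] at hI
      rw [h0 I (fun h => hI ⟨mem_univ _, h⟩), mul_zero]
  rw [h2]
  exact (g_two_even heven h4).ne'

end

/-! ### the main theorem -/

open Classical in
theorem core (n k : ℕ) (hk : 3 ≤ k) (hkn : k < n) (P : SimpleGraph (Fin n) → Prop)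
    (hlow : ∀ G : SimpleGraph (Fin n), VC k G → (SimpleGraph.cycleGraph n).IsContained G → P G)
    (hup : ∀ G : SimpleGraph (Fin n), P G → VC 2 G ∧ ∀ v, k ≤ (G.neighborSet v).ncard)
    (hP : GP n (n.choose 2 - 1) P) : False := by
  have : NeZero n := ⟨by omega⟩
  have hcard : Fintype.card (ZMod n) = n := ZMod.card n
  rcases Nat.even_or_odd n with hev | hodd
  · rcases (by omega : k = 3 ∨ 4 ≤ k) with rfl | hk4
    · -- direct, `k = 3`
      have h4 : 4 ≤ Fintype.card (ZMod n) := by rw [hcard]; omega
      refine sum_even (A := ZMod n) (by rw [hcard]; exact hev) h4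
        (fun I => if PV P (ZMod n) (cay (SI I)) then 1 else 0) ?_ ?_
        (rel_circ (by omega) hP)
      · intro I hI
        refine if_neg fun h => hI ?_
        obtain ⟨h1, h2⟩ := PV_up hup _ h
        refine ⟨gn_of_conn I (conn_of_VC (by norm_num) h1), ?_⟩
        have h3 := h2 0
        rw [deg_cay] at h3
        by_contra hcon
        have h5 : (SI I).card ≤ 2 := by
          rcases (by omega : I.card = 0 ∨ I.card = 1) with h6 | h6
          · rw [card_eq_zero] at h6
            subst h6
            simp [SI]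
          · obtain ⟨j, rfl⟩ := card_eq_one.1 h6
            have : SI ({j} : Finset (Rp (ZMod n))) = pr j.1 := by
              ext x
              rw [mem_SI]
              simp
            rw [this]
            exact card_insert_le _ _
        omega
      · intro I h1 h2
        refine if_pos (PV_low hlow (ZMod.finEquiv n).symm.toEquiv _ (VC_three I h2 h1) ?_)
        have := ham_cay I h1 (by omega)
        rwa [hcard] at this
    · -- cone
      obtain ⟨m, rfl⟩ : ∃ m, n = m + 1 := ⟨n - 1, by omega⟩
      have : NeZero m := ⟨by omega⟩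
      have hcm : Fintype.card (ZMod m) = m := ZMod.card m
      have hmodd : Odd m := by
        rw [Nat.even_add_one, Nat.not_even_iff_odd] at hev
        exact hev
      have ho : Odd (Fintype.card (ZMod m)) := by rw [hcm]; exact hmodd
      have hisol : ∀ G : SimpleGraph (Fin (m + 1)), (∃ v, ∀ w, ¬ G.Adj v w) → ¬ P G := by
        rintro G ⟨v, hv⟩ h
        have h1 := (hup G h).2 v
        have h2 : G.neighborSet v = ∅ := by
          ext w
          simp [hv w]
        rw [h2, Set.ncard_empty] at h1
        omega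
      refine main_sum (A := ZMod m) ho (k / 2) (by omega) ?_
        (fun I => if PV P (Option (ZMod m)) (coneO (cay (SI I))) then 1 else 0) ?_ ?_ ?_
        (rel_cone (by omega) hP hisol)
      · rw [hcm]
        obtain ⟨r, hr⟩ := hmodd
        omega
      · intro I
        by_cases h : PV P (Option (ZMod m)) (coneO (cay (SI I)))
        · exact Or.inr (if_pos h)
        · exact Or.inl (if_neg h)
      · intro I hI
        refine if_neg fun h => hI ?_
        obtain ⟨h1, h2⟩ := PV_up hup _ h
        refine ⟨gn_of_conn I (conn_of_cone h1), ?_⟩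
        have h3 := h2 (some 0)
        rw [nbr_cone, deg_cay, card_SI ho] at h3
        omega
      · intro I h1 h2 h3
        have e : Option (ZMod m) ≃ Fin (m + 1) := Fintype.equivFinOfCardEq (by simp [hcm])
        refine if_pos (PV_low hlow e _ (VC_cone (by omega)
          (VC_of_good ho (k - 1) (k / 2) (by omega) I h1 h2 h3)) ?_)
        have := ham_cone I h1 (by rw [hcm]; omega)
        rwa [hcm] at this
  · -- direct, `n` odd
    have ho : Odd (Fintype.card (ZMod n)) := by rw [hcard]; exact hodd
    refine main_sum (A := ZMod n) ho ((k + 1) / 2) (by omega) ?_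
      (fun I => if PV P (ZMod n) (cay (SI I)) then 1 else 0) ?_ ?_ ?_
      (rel_circ (by omega) hP)
    · rw [hcard]
      obtain ⟨r, hr⟩ := hodd
      omega
    · intro I
      by_cases h : PV P (ZMod n) (cay (SI I))
      · exact Or.inr (if_pos h)
      · exact Or.inl (if_neg h)
    · intro I hI
      refine if_neg fun h => hI ?_
      obtain ⟨h1, h2⟩ := PV_up hup _ h
      refine ⟨gn_of_conn I (conn_of_VC (by norm_num) h1), ?_⟩
      have h3 := h2 0
      rw [deg_cay, card_SI ho] at h3
      omega
    · intro I h1 h2 h3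
      refine if_pos (PV_low hlow (ZMod.finEquiv n).symm.toEquiv _
        (VC_of_good ho k ((k + 1) / 2) (by omega) I h1 h2 h3) ?_)
      have := ham_cay I h1 (by rw [hcard]; omega)
      rwa [hcard] at this

end Pool.Agent.Q6.KV
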