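import Mathlib
import Pool.Agent.W332.Kd.Wr
import Pool.Agent.Q6.KV.Final

set_option autoImplicit false
set_option linter.unusedSectionVars false

/-!
# Factors of Cayley graphs
-/

namespace Pool.Agent.Q6.KV

open Finset
open Pool.Agent.W332.Kd (cay Sy cay_adj Rp pr mem_pr mem_Rp pr_sy pr_disj cover_pr part_pr Part)
open Pool.Agent.H119R2.Kp (PV GP)

/-- `G` has an `r`-factor -/
def HF {V : Type} (r : ℕ) (G : SimpleGraph V) : Prop :=
  ∃ H : SimpleGraph V, H ≤ G ∧ ∀ v, (H.neighborSet v).ncard = r

theorem HF.iso {V W : Type} {G : SimpleGraph V} {G' : SimpleGraph W} (φ : G ≃g G') {r : ℕ}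
    (h : HF r G) : HF r G' := by
  obtain ⟨H, h1, h2⟩ := h
  refine ⟨H.map φ.toEquiv.toEmbedding, ?_, ?_⟩
  · intro u v huv
    rw [SimpleGraph.map_adj] at huv
    obtain ⟨a, b, hab, rfl, rfl⟩ := huv
    exact φ.map_adj_iff.2 (h1 hab)
  · intro v
    have h3 := nbr_iso (SimpleGraph.Iso.map φ.toEquiv H) (φ.symm v)
    have h4 : (SimpleGraph.Iso.map φ.toEquiv H) (φ.symm v) = v := φ.apply_symm_apply v
    rw [h4] at h3
    exact h3.trans (h2 _)

section

variable {A : Type} [AddCommGroup A] [Fintype A]

open Classical in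
/-- symmetric subsets of given size -/
theorem sub_sym (S : Finset A) (hS : Sy S) (a : ℕ) (ha : a ≤ S.card) :
    ∃ S' : Finset A, S' ⊆ S ∧ Sy S' ∧ (S'.card = a ∨ (S'.card = a + 1 ∧ Odd a)) := by
  set 𝓕 := S.powerset.filter fun S' => Sy S' ∧ a ≤ S'.card with hF
  have hne : 𝓕.Nonempty := ⟨S, by rw [hF, mem_filter, mem_powerset]; exact ⟨subset_rfl, hS, ha⟩⟩
  obtain ⟨T, hT, hmin⟩ := Finset.exists_min_image 𝓕 card hne
  rw [hF, mem_filter, mem_powerset] at hT
  obtain ⟨hTS, hTsy, haT⟩ := hT
  refine ⟨T, hTS, hTsy, ?_⟩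
  rcases Nat.eq_or_lt_of_le haT with h | hlt
  · exact Or.inl h.symm
  right
  have hrem : ∀ x ∈ T, T.card < a + ({x, -x} : Finset A).card := by
    intro x hx
    have h1 : ({x, -x} : Finset A) ⊆ T := by
      intro y hy
      rw [mem_insert, mem_singleton] at hy
      rcases hy with rfl | rfl
      · exact hx
      · exact hTsy.neg x hx
    by_contra hcon
    have h2 : T \ {x, -x} ∈ 𝓕 := by
      rw [hF, mem_filter, mem_powerset]
      refine ⟨sdiff_subset.trans hTS, ⟨fun h => hTsy.zero (mem_sdiff.1 h).1, ?_⟩, ?_⟩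
      · intro y hy
        rw [mem_sdiff, mem_insert, mem_singleton] at hy ⊢
        refine ⟨hTsy.neg y hy.1, ?_⟩
        rintro (h | h)
        · exact hy.2 (Or.inr (by rw [← h, neg_neg]))
        · exact hy.2 (Or.inl (neg_injective h))
      · rw [card_sdiff_of_subset h1]
        omega
    have h3 := hmin _ h2
    rw [card_sdiff_of_subset h1] at h3
    have h4 : 0 < ({x, -x} : Finset A).card := card_pos.2 ⟨x, mem_insert_self _ _⟩
    have := card_le_card h1
    omega
  have hTne : T.Nonempty := card_pos.1 (by omega)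
  obtain ⟨x0, hx0⟩ := hTne
  have h2 := hrem x0 hx0
  have h3 : ({x0, -x0} : Finset A).card ≤ 2 := card_insert_le _ _
  have hT1 : T.card = a + 1 := by omega
  refine ⟨hT1, ?_⟩
  have hno : ∀ x ∈ T, -x ≠ x := by
    intro x hx h
    have h4 := hrem x hx
    rw [h, pair_eq_singleton, card_singleton] at h4
    omega
  have hev : Even T.card := by
    have h4 : ∑ x ∈ T, (1 : ZMod 2) = 0 :=
      Finset.sum_involution (fun x _ => -x) (fun x _ => by decide) (fun x hx _ => hno x hx)
        (fun x hx => hTsy.neg x hx) (fun x _ => neg_neg x)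
    rw [sum_const, nsmul_eq_mul, mul_one] at h4
    exact (ZMod.natCast_eq_zero_iff_even).1 h4
  obtain ⟨r, hr⟩ := hev
  exact ⟨r - 1, by omega⟩

/-- Cayley graphs of large degree have factors -/
theorem HF_cay (S : Finset A) (hS : Sy S) (a : ℕ) (ha : a ≤ S.card) :
    HF a (cay S) ∨ (Odd a ∧ HF (a + 1) (cay S)) := by
  obtain ⟨S', h1, h2, h3⟩ := sub_sym S hS a ha
  have h4 : cay S' ≤ cay S := Pool.Agent.W332.Kd.cay_mono h1
  rcases h3 with h3 | ⟨h3, h5⟩
  · exact Or.inl ⟨cay S', h4, fun v => by
      rw [← h3]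
      exact Pool.Agent.W332.Kd.cay_Reg h2 v⟩
  · exact Or.inr ⟨h5, cay S', h4, fun v => by
      rw [← h3]
      exact Pool.Agent.W332.Kd.cay_Reg h2 v⟩

/-- half of a cyclic subgroup of even order, and its cosets -/
theorem half (s : A) (hs : Even (addOrderOf s)) : ∃ B : A → Prop, ∀ x, B (x + s) ↔ ¬ B x := by
  classical
  set H1 := AddSubgroup.zmultiples s with hH1
  set H2 := AddSubgroup.zmultiples (2 • s) with hH2
  have hs2 : s ∉ H2 := by
    rw [hH2, AddSubgroup.mem_zmultiples_iff]
    rintro ⟨k, hk⟩
    have h1 : (2 * k - 1) • s = 0 := by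
      rw [sub_smul, one_smul, sub_eq_zero, mul_comm, mul_smul, two_zsmul, ← two_nsmul]
      exact hk
    have h2 : (addOrderOf s : ℤ) ∣ 2 * k - 1 := addOrderOf_dvd_iff_zsmul_eq_zero.2 h1
    obtain ⟨r, hr⟩ := hs
    obtain ⟨l, hl⟩ := h2
    rw [hr] at hl
    push_cast at hl
    have : (2 : ℤ) ∣ 1 := ⟨k - r * l, by linarith⟩
    norm_num at this
  have h12 : ∀ x ∈ H1, (x + s ∈ H2 ↔ x ∉ H2) := by
    intro x hx
    obtain ⟨k, rfl⟩ := AddSubgroup.mem_zmultiples_iff.1 hx
    have hev : ∀ j : ℤ, (2 * j) • s ∈ H2 := by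
      intro j
      rw [hH2, AddSubgroup.mem_zmultiples_iff]
      refine ⟨j, ?_⟩
      rw [mul_comm, mul_smul, two_zsmul, ← two_nsmul]
    constructor
    · intro h h'
      apply hs2
      have := H2.sub_mem h h'
      rwa [add_sub_cancel_left] at this
    · intro h
      rcases Int.even_or_odd' k with ⟨j, rfl | rfl⟩
      · exact absurd (hev j) h
      · have h3 : (2 * j + 1) • s + s = (2 * (j + 1)) • s := by
          rw [← add_one_zsmul]
          congr 1
          ring
        rw [h3]
        exact hev _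
  let r : A → A := fun x => Quotient.out (QuotientAddGroup.mk x : A ⧸ H1)
  have hr : ∀ x, x - r x ∈ H1 := by
    intro x
    have h1 : (QuotientAddGroup.mk (r x) : A ⧸ H1) = QuotientAddGroup.mk x := Quotient.out_eq _
    have h2 := (QuotientAddGroup.eq).1 h1
    rwa [neg_add_eq_sub] at h2
  have hrs : ∀ x, r (x + s) = r x := by
    intro x
    have h1 : (QuotientAddGroup.mk (x + s) : A ⧸ H1) = QuotientAddGroup.mk x := by
      rw [eq_comm, QuotientAddGroup.eq, neg_add_cancel_left]
      exact AddSubgroup.mem_zmultiples s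
    change Quotient.out _ = Quotient.out _
    rw [h1]
  refine ⟨fun x => x - r x ∈ H2, fun x => ?_⟩
  change x + s - r (x + s) ∈ H2 ↔ ¬ (x - r x ∈ H2)
  rw [hrs, ← h12 _ (hr x), show x + s - r x = x - r x + s by abel]

/-- an element of even order gives a factor of odd degree -/
theorem HF_odd (S : Finset A) (hS : Sy S) (a : ℕ) (hodd : Odd a) (ha : a ≤ S.card) (s : A)
    (hs : s ∈ S) (hev : Even (addOrderOf s)) (hinv : ∀ x ∈ S, -x = x → x = s) :
    HF a (cay S) := by
  classical
  by_cases hss : -s = s
  · -- `s` is an involution: remove it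
    have hS1 : Sy (S.erase s) := by
      refine ⟨fun h => hS.zero (mem_erase.1 h).2, fun x hx => ?_⟩
      rw [mem_erase] at hx ⊢
      refine ⟨fun h => hx.1 ?_, hS.neg x hx.2⟩
      rw [← neg_neg x, h, hss]
    obtain ⟨S', h1, h2, h3⟩ := sub_sym (S.erase s) hS1 (a - 1) (by
      rw [card_erase_of_mem hs]
      omega)
    have hnot : s ∉ S' := fun h => (mem_erase.1 (h1 h)).1 rfl
    have hcard : S'.card = a - 1 := by
      rcases h3 with h3 | ⟨-, h3⟩
      · exact h3
      · obtain ⟨r, hr⟩ := hodd
        obtain ⟨r', hr'⟩ := h3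
        omega
    have hsy : Sy (insert s S') := by
      refine ⟨fun h => ?_, fun x hx => ?_⟩
      · rcases mem_insert.1 h with h | h
        · exact hS.zero (h ▸ hs)
        · exact h2.zero h
      · rcases mem_insert.1 hx with rfl | h
        · rw [hss]
          exact mem_insert_self _ _
        · exact mem_insert_of_mem (h2.neg x h)
    refine ⟨cay (insert s S'), Pool.Agent.W332.Kd.cay_mono (insert_subset hs
      (h1.trans (erase_subset _ _))), fun v => ?_⟩
    have h4 := Pool.Agent.W332.Kd.cay_Reg hsy v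
    rw [card_insert_of_notMem hnot, hcard] at h4
    rw [h4]
    obtain ⟨r, hr⟩ := hodd
    omega
  · -- no involution
    have hno : ∀ x ∈ S, -x ≠ x := fun x hx h => hss (hinv x hx h ▸ h)
    set S1 := (S.erase s).erase (-s) with hS1
    have hm1 : ∀ x, x ∈ S1 ↔ x ≠ -s ∧ x ≠ s ∧ x ∈ S := fun x => by
      rw [hS1, mem_erase, mem_erase]
    have hS1y : Sy S1 := by
      refine ⟨fun h => hS.zero ((hm1 _).1 h).2.2, fun x hx => ?_⟩
      rw [hm1] at hx ⊢
      refine ⟨fun h => hx.2.1 (neg_injective h), fun h => hx.1 ?_, hS.neg x hx.2.2⟩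
      rw [← neg_neg x, h]
    have hScard : a + 1 ≤ S.card := by
      have hevS : Even S.card := by
        have h4 : ∑ x ∈ S, (1 : ZMod 2) = 0 :=
          Finset.sum_involution (fun x _ => -x) (fun x _ => by decide) (fun x hx _ => hno x hx)
            (fun x hx => hS.neg x hx) (fun x _ => neg_neg x)
        rw [sum_const, nsmul_eq_mul, mul_one] at h4
        exact (ZMod.natCast_eq_zero_iff_even).1 h4
      obtain ⟨r, hr⟩ := hodd
      obtain ⟨r', hr'⟩ := hevS
      omega
    have hc1 : S1.card = S.card - 2 := by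
      rw [hS1, card_erase_of_mem (mem_erase.2 ⟨hss, hS.neg s hs⟩), card_erase_of_mem hs]
      omega
    obtain ⟨S', h1, h2, h3⟩ := sub_sym S1 hS1y (a - 1) (by omega)
    have hcard : S'.card = a - 1 := by
      rcases h3 with h3 | ⟨-, h3⟩
      · exact h3
      · obtain ⟨r, hr⟩ := hodd
        obtain ⟨r', hr'⟩ := h3
        omega
    have hsS' : s ∉ S' := fun h => ((hm1 _).1 (h1 h)).2.1 rfl
    have hnsS' : -s ∉ S' := fun h => ((hm1 _).1 (h1 h)).1 rfl
    obtain ⟨B, hB⟩ := half s hev
    have hB' : ∀ x, B (x - s) ↔ ¬ B x := by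
      intro x
      have := hB (x - s)
      rw [sub_add_cancel] at this
      tauto
    -- the matching
    let m : A → A := fun x => if B x then x + s else x - s
    have hm : ∀ x, m (m x) = x := by
      intro x
      by_cases h : B x
      · have h4 : m x = x + s := if_pos h
        rw [h4]
        change (if B (x + s) then x + s + s else x + s - s) = x
        rw [if_neg (by rw [hB]; exact not_not.2 h), add_sub_cancel_right]
      · have h4 : m x = x - s := if_neg h
        rw [h4]
        change (if B (x - s) then x - s + s else x - s - s) = x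
        rw [if_pos ((hB' x).2 h), sub_add_cancel]
    have hmd : ∀ x, m x - x = s ∨ m x - x = -s := by
      intro x
      by_cases h : B x
      · left
        change (if B x then x + s else x - s) - x = s
        rw [if_pos h, add_sub_cancel_left]
      · right
        change (if B x then x + s else x - s) - x = -s
        rw [if_neg h]
        abel
    have hs0 : s ≠ 0 := fun h => hS.zero (h ▸ hs)
    have hmne : ∀ x, m x ≠ x := by
      intro x h
      rcases hmd x with h4 | h4
      · rw [h, sub_self] at h4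
        exact hs0 h4.symm
      · rw [h, sub_self] at h4
        exact hs0 (neg_eq_zero.1 h4.symm)
    let F : SimpleGraph A :=
      { Adj := fun x y => y - x ∈ S' ∨ y = m x
        symm := ⟨by
          rintro x y (h | h)
          · left
            have := h2.neg _ h
            rwa [neg_sub] at this
          · right
            rw [h, hm]⟩
        loopless := ⟨by
          rintro x (h | h)
          · rw [sub_self] at h
            exact h2.zero h
          · exact hmne x h.symm⟩ }
    refine ⟨F, ?_, ?_⟩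
    · rintro x y (h | h)
      · rw [cay_adj hS]
        exact ((hm1 _).1 (h1 h)).2.2
      · rw [cay_adj hS, h]
        rcases hmd x with h4 | h4
        · rw [h4]
          exact hs
        · rw [h4]
          exact hS.neg s hs
    · intro v
      have h4 : F.neighborSet v = insert (m v) ((cay S').neighborSet v) := by
        ext w
        rw [Set.mem_insert_iff]
        constructor
        · rintro (h | h)
          · exact Or.inr ((cay_adj h2 v w).2 h)
          · exact Or.inl h
        · rintro (h | h)
          · exact Or.inr h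
          · exact Or.inl ((cay_adj h2 v w).1 h)
      rw [h4, Set.ncard_insert_of_notMem _ (Set.toFinite _), Pool.Agent.W332.Kd.cay_Reg h2 v, hcard]
      · obtain ⟨r, hr⟩ := hodd
        omega
      · intro h
        have h5 : m v - v ∈ S' := (cay_adj h2 v _).1 h
        rcases hmd v with h6 | h6
        · rw [h6] at h5
          exact hsS' h5
        · rw [h6] at h5
          exact hnsS' h5

end

end Pool.Agent.Q6.KV
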