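import Mathlib
import Pool.Agent.Q6.KV.Fac
import Pool.Agent.Y46.Kc.Cop2

set_option autoImplicit false
set_option linter.unusedSectionVars false

/-!
# Properties between factors and minimum degree
-/

namespace Pool.Agent.Q6.KV

open Finset
open Pool.Agent.W332.Kd (cay Sy cay_adj Rp pr mem_pr mem_Rp pr_sy pr_disj cover_pr part_pr Part)
open Pool.Agent.H119R2.Kp (PV GP)

section

variable {n : ℕ} {P : SimpleGraph (Fin n) → Prop}

theorem PV_deg {a : ℕ} (hup : ∀ G : SimpleGraph (Fin n), P G → ∀ v, a ≤ (G.neighborSet v).ncard)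
    {V : Type} (G : SimpleGraph V) (h : PV P V G) : ∀ v, a ≤ (G.neighborSet v).ncard := by
  obtain ⟨e, he⟩ := h
  intro v
  rw [← nbr_iso (SimpleGraph.Iso.map e G) v]
  exact hup _ he _

theorem PV_HF {a : ℕ} (h1 : ∀ G : SimpleGraph (Fin n), HF a G → P G) {V : Type} (e : V ≃ Fin n)
    (G : SimpleGraph V) (h : HF a G) : PV P V G :=
  ⟨e, h1 _ (h.iso (SimpleGraph.Iso.map e G))⟩

/-- even degrees, or two consecutive degrees -/
theorem coreA {a : ℕ} (ha : 1 ≤ a) (han : a < n)
    (hup : ∀ G : SimpleGraph (Fin n), P G → ∀ v, a ≤ (G.neighborSet v).ncard)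
    (h1 : ∀ G : SimpleGraph (Fin n), HF a G → P G)
    (h2 : Even a ∨ ∀ G : SimpleGraph (Fin n), HF (a + 1) G → P G)
    (hP : GP n (n.choose 2 - 1) P) : False := by
  refine Pool.Agent.W332.Kd.no_GP (by omega) hP (a - 1) (by omega) ?_
  intro A _ _ hA S hS
  have : a - 1 + 1 = a := by omega
  rw [this]
  constructor
  · intro h
    have h3 := PV_deg hup _ h 0
    rwa [Pool.Agent.W332.Kd.cay_Reg hS 0] at h3
  · intro h
    have e : A ≃ Fin n := Fintype.equivFinOfCardEq hA
    rcases HF_cay S hS a h with h3 | ⟨h3, h4⟩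
    · exact PV_HF h1 e _ h3
    · rcases h2 with h2 | h2
      · exact absurd h2 (Nat.not_even_iff_odd.2 h3)
      · exact PV_HF h2 e _ h4

end

/-! ### components of Cayley graphs -/

section

variable {A : Type} [AddCommGroup A] [Fintype A] [DecidableEq A]

theorem reach_iff (I : Finset (Rp A)) (x : A) : (cay (SI I)).Reachable 0 x ↔ x ∈ gn I := by
  constructor
  · rintro ⟨p⟩
    have key : ∀ (u v : A), (cay (SI I)).Walk u v → v - u ∈ gn I := by
      intro u v w
      induction w with
      | nil =>
        rw [sub_self]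
        exact (gn I).zero_mem
      | @cons u v w h _ ih =>
        rw [cay_adj (SI_sy I)] at h
        have h1 : v - u ∈ gn I := AddSubgroup.subset_closure (mem_coe.2 h)
        have : w - u = (w - v) + (v - u) := by abel
        rw [this]
        exact (gn I).add_mem ih h1
    have := key _ _ p
    rwa [sub_zero] at this
  · intro h
    unfold gn at h
    refine AddSubgroup.closure_induction (p := fun y _ => (cay (SI I)).Reachable 0 y) ?_ ?_ ?_ ?_ h
    · intro y hy
      refine SimpleGraph.Adj.reachable ?_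
      rw [cay_adj (SI_sy I), sub_zero]
      exact mem_coe.1 hy
    · exact SimpleGraph.Reachable.refl _
    · intro y z _ _ hy hz
      refine hy.trans ?_
      obtain ⟨p⟩ := hz
      have key : ∀ (u v : A), (cay (SI I)).Walk u v → (cay (SI I)).Reachable (y + u) (y + v) := by
        intro u v w
        induction w with
        | nil => exact SimpleGraph.Reachable.refl _
        | @cons u v w h _ ih =>
          refine SimpleGraph.Reachable.trans (SimpleGraph.Adj.reachable ?_) ih
          rw [cay_adj (SI_sy I)] at h ⊢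
          rwa [add_sub_add_left_eq_sub]
      have := key _ _ p
      rwa [add_zero] at this
    · intro y _ hy
      obtain ⟨p⟩ := hy
      have key : ∀ (u v : A), (cay (SI I)).Walk u v → (cay (SI I)).Reachable (u - y) (v - y) := by
        intro u v w
        induction w with
        | nil => exact SimpleGraph.Reachable.refl _
        | @cons u v w h _ ih =>
          refine SimpleGraph.Reachable.trans (SimpleGraph.Adj.reachable ?_) ih
          rw [cay_adj (SI_sy I)] at h ⊢
          rwa [sub_sub_sub_cancel_right]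
      have := key _ _ p
      rw [zero_sub, sub_self] at this
      exact this.symm

theorem comp_card (I : Finset (Rp A)) :
    {w | (cay (SI I)).Reachable 0 w}.ncard = Nat.card (gn I) := by
  have : {w | (cay (SI I)).Reachable 0 w} = (gn I : Set A) := by
    ext w
    exact reach_iff I w
  rw [this]
  rfl

end

/-! ### cyclic groups of even order -/

section

open Classical

variable {A : Type} [AddCommGroup A] [Fintype A] [DecidableEq A]

/-- the elements of odd order -/
noncomputable def Od (A : Type) [AddCommGroup A] [Fintype A] : AddSubgroup A :=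
  ks A (ordCompl[2] (Fintype.card A))

theorem odd_compl : Odd (ordCompl[2] (Fintype.card A)) := by
  rw [Nat.odd_iff]
  have h := Nat.not_dvd_ordCompl Nat.prime_two (n := Fintype.card A) Fintype.card_ne_zero
  omega

theorem card_Od [IsAddCyclic A] : Nat.card (Od A) = ordCompl[2] (Fintype.card A) := by
  unfold Od
  rw [card_ks, Nat.card_eq_fintype_card]
  exact Nat.gcd_eq_right (Nat.ordCompl_dvd _ _)

theorem even_of_notMem {x : A} (hx : x ∉ Od A) : Even (addOrderOf x) := by
  by_contra hcon
  rw [Nat.not_even_iff_odd] at hcon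
  apply hx
  unfold Od
  rw [mem_ks, ← addOrderOf_dvd_iff_nsmul_eq_zero]
  have h1 : addOrderOf x ∣ ordProj[2] (Fintype.card A) * ordCompl[2] (Fintype.card A) := by
    rw [Nat.ordProj_mul_ordCompl_eq_self]
    exact addOrderOf_dvd_card
  exact (Nat.Coprime.pow_right _ (Nat.coprime_two_right.2 hcon)).dvd_of_dvd_mul_left h1

theorem odd_of_le {K : AddSubgroup A} (h : K ≤ Od A) [IsAddCyclic A] : Odd (Nat.card K) := by
  have h1 : Nat.card K ∣ Nat.card (Od A) := AddSubgroup.card_dvd_of_le h
  rw [card_Od] at h1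
  exact Odd.of_dvd_nat odd_compl h1

/-- there is exactly one involution -/
theorem exists_inv [IsAddCyclic A] (heven : Even (Fintype.card A)) :
    ∃ z : A, z ≠ 0 ∧ -z = z ∧ ∀ x : A, -x = x → x = 0 ∨ x = z := by
  have h1 : Nat.card (ks A 2) = 2 := by
    rw [card_ks, Nat.card_eq_fintype_card]
    exact Nat.gcd_eq_right (even_iff_two_dvd.1 heven)
  have hm : ∀ x : A, x ∈ ks A 2 ↔ -x = x := by
    intro x
    rw [mem_ks, two_nsmul, neg_eq_iff_add_eq_zero]
  rw [← hf_card, card_eq_two] at h1
  obtain ⟨u, v, huv, h2⟩ := h1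
  have hm2 : ∀ x, -x = x ↔ x = u ∨ x = v := by
    intro x
    rw [← hm, ← mem_hf, h2, mem_insert, mem_singleton]
  rcases (hm2 0).1 neg_zero with h | h
  · refine ⟨v, fun h' => huv (by rw [h', ← h]), (hm2 v).2 (Or.inr rfl), fun x hx => ?_⟩
    rw [h]
    exact (hm2 x).1 hx
  · refine ⟨u, fun h' => huv (by rw [h', ← h]), (hm2 u).2 (Or.inl rfl), fun x hx => ?_⟩
    rw [h]
    exact ((hm2 x).1 hx).symm

theorem card_SI_of (I : Finset (Rp A)) (h : ∀ j ∈ I, -j.1 ≠ j.1) : (SI I).card = 2 * I.card := by
  unfold SI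
  rw [card_biUnion (fun i _ j _ hij => part_pr.disj i j hij),
    sum_congr rfl (fun (j : Rp A) hj => by
      rw [Pool.Agent.W332.Kd.card_pr, if_neg (h j hj)]), sum_const,
    smul_eq_mul, mul_comm]

theorem card_SI_insert {I : Finset (Rp A)} {z : Rp A} (hz : z ∉ I) (hzz : -z.1 = z.1) :
    (SI (insert z I)).card = (SI I).card + 1 := by
  have h1 : SI (insert z I) = pr z.1 ∪ SI I := by
    unfold SI
    rw [biUnion_insert]
  have h2 : Disjoint (pr z.1) (SI I) := by
    rw [Finset.disjoint_left]
    intro x hx hx'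
    obtain ⟨j, hj, hx'⟩ := mem_SI.1 hx'
    exact Finset.disjoint_left.1 (part_pr.disj z j (fun h => hz (h ▸ hj))) hx hx'
  rw [h1, card_union_of_disjoint h2, Pool.Agent.W332.Kd.card_pr, if_pos hzz, add_comm]

theorem choose_lt {m N t : ℕ} (hm : m < N) (ht : 1 ≤ t) (htN : t ≤ N) :
    m.choose t < N.choose t := by
  obtain ⟨N', rfl⟩ : ∃ N', N = N' + 1 := ⟨N - 1, by omega⟩
  obtain ⟨t', rfl⟩ : ∃ t', t = t' + 1 := ⟨t - 1, by omega⟩
  have h1 : m.choose (t' + 1) ≤ N'.choose (t' + 1) := Nat.choose_le_choose _ (by omega)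
  rw [Nat.choose_succ_succ']
  have h2 : 0 < N'.choose t' := Nat.choose_pos (by omega)
  omega

theorem sum_main [IsAddCyclic A] (heven : Even (Fintype.card A)) (t : ℕ) (ht : 1 ≤ t)
    (htn : 2 * t + 2 ≤ Fintype.card A) (f : Finset (Rp A) → ℤ)
    (h0 : ∀ I, (SI I).card < 2 * t + 1 ∨ gn I ≤ Od A → f I = 0)
    (h1 : ∀ I, 2 * t + 1 ≤ (SI I).card → ¬ gn I ≤ Od A → f I = 1) :
    ∑ I : Finset (Rp A), (-1 : ℤ) ^ I.card * f I ≠ 0 := by
  obtain ⟨z, hz0, hzz, hz⟩ := exists_inv heven
  obtain ⟨z0, hz1⟩ := cover_pr z hz0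
  have hz2 : z0.1 = z := by
    rcases (mem_pr _ _).1 hz1 with h | h
    · exact h.symm
    · rw [h, neg_neg] at hzz
      rw [h]
      exact hzz
  have hzz0 : -z0.1 = z0.1 := by rw [hz2, hzz]
  have hno : ∀ j : Rp A, j ≠ z0 → -j.1 ≠ j.1 := by
    intro j hj h
    rcases hz _ h with h | h
    · exact ((mem_Rp _).1 j.2).1 h
    · exact hj (Subtype.ext (h.trans hz2.symm))
  set s : Finset (Rp A) := univ.erase z0 with hs
  have hzs : z0 ∉ s := fun h => (mem_erase.1 h).1 rfl
  have huniv : insert z0 s = (univ : Finset (Rp A)) := insert_erase (mem_univ _)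
  have hcs : ∀ J ∈ s.powerset, (SI J).card = 2 * J.card := by
    intro J hJ
    refine card_SI_of J fun j hj => hno j ?_
    exact (mem_erase.1 (mem_powerset.1 hJ hj)).1
  have hJz : ∀ J ∈ s.powerset, z0 ∉ J := fun J hJ h => hzs (mem_powerset.1 hJ h)
  -- the number of pairs
  have hSu : SI (univ : Finset (Rp A)) = univ.erase 0 := by
    ext x
    rw [mem_SI, mem_erase]
    constructor
    · rintro ⟨j, -, hx⟩
      exact ⟨fun h => (part_pr.sy j).zero (h ▸ hx), mem_univ _⟩
    · rintro ⟨h, -⟩
      obtain ⟨j, hj⟩ := cover_pr x h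
      exact ⟨j, mem_univ _, hj⟩
  have hN : 2 * s.card + 2 = Fintype.card A := by
    have h2 := congrArg card hSu
    have h3 : (SI (univ : Finset (Rp A))).card = (SI (insert z0 s)).card := by rw [huniv]
    rw [h3, card_SI_insert hzs hzz0, hcs s (mem_powerset.2 subset_rfl),
      card_erase_of_mem (mem_univ (0 : A)), card_univ] at h2
    have : 0 < Fintype.card A := Fintype.card_pos
    omega
  -- split
  have hsplit : ∑ I : Finset (Rp A), (-1 : ℤ) ^ I.card * f I =
      (∑ I : Finset (Rp A), if 2 * t + 1 ≤ (SI I).card then (-1 : ℤ) ^ I.card else 0) -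
      ∑ I ∈ (pk (Od A)).powerset.filter (fun I => t + 1 ≤ I.card), (-1 : ℤ) ^ I.card := by
    have h2 : ∑ I ∈ (pk (Od A)).powerset.filter (fun I => t + 1 ≤ I.card), (-1 : ℤ) ^ I.card =
        ∑ I : Finset (Rp A), if 2 * t + 1 ≤ (SI I).card ∧ gn I ≤ Od A then
          (-1 : ℤ) ^ I.card else 0 := by
      rw [← Finset.sum_filter]
      refine sum_congr ?_ fun _ _ => rfl
      ext I
      rw [mem_filter, mem_filter, mem_powerset, gn_le']
      have hodd : I ⊆ pk (Od A) → (SI I).card = 2 * I.card := by
        intro hI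
        refine card_SI_of I fun j hj h => ?_
        have h3 := mem_pk.1 (hI hj)
        unfold Od at h3
        rw [mem_ks, ← addOrderOf_dvd_iff_nsmul_eq_zero] at h3
        have h4 : addOrderOf j.1 ∣ 2 := by
          rw [addOrderOf_dvd_iff_nsmul_eq_zero, two_nsmul]
          nth_rewrite 1 [← h]
          exact neg_add_cancel _
        have h5 : Odd (addOrderOf j.1) := Odd.of_dvd_nat odd_compl h3
        rcases (Nat.dvd_prime Nat.prime_two).1 h4 with h6 | h6
        · exact ((mem_Rp _).1 j.2).1 (AddMonoid.addOrderOf_eq_one_iff.1 h6)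
        · rw [h6] at h5
          exact absurd h5 (by decide)
      constructor
      · rintro ⟨h3, h4⟩
        exact ⟨mem_univ _, by rw [hodd h3]; omega, h3⟩
      · rintro ⟨-, h3, h4⟩
        rw [hodd h4] at h3
        exact ⟨h4, by omega⟩
    rw [h2, ← sum_sub_distrib]
    refine sum_congr rfl fun I _ => ?_
    by_cases h3 : 2 * t + 1 ≤ (SI I).card
    · by_cases h4 : gn I ≤ Od A
      · rw [h0 I (Or.inr h4), if_pos h3, if_pos ⟨h3, h4⟩]
        ring
      · rw [h1 I h3 h4, if_pos h3, if_neg (fun h => h4 h.2)]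
        ring
    · rw [h0 I (Or.inl (by omega)), if_neg h3, if_neg (fun h => h3 h.1)]
      ring
  -- the first sum
  have hfirst : (∑ I : Finset (Rp A), if 2 * t + 1 ≤ (SI I).card then (-1 : ℤ) ^ I.card else 0) =
      -((-1) ^ t * (s.card.choose t : ℤ)) := by
    have h2 : (univ : Finset (Finset (Rp A))) = (insert z0 s).powerset := by
      rw [huniv, powerset_univ]
    rw [h2, Finset.sum_powerset_insert hzs, ← sum_add_distrib]
    have h3 : ∀ J ∈ s.powerset, ((if 2 * t + 1 ≤ (SI J).card then (-1 : ℤ) ^ J.card else 0) +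
        if 2 * t + 1 ≤ (SI (insert z0 J)).card then (-1 : ℤ) ^ (insert z0 J).card else 0) =
        if J.card = t then -(-1) ^ t else 0 := by
      intro J hJ
      rw [card_SI_insert (hJz J hJ) hzz0, hcs J hJ, card_insert_of_notMem (hJz J hJ), pow_succ]
      rcases lt_trichotomy J.card t with h | h | h
      · rw [if_neg (by omega), if_neg (by omega), if_neg (by omega), add_zero]
      · rw [if_neg (by omega), if_pos (by omega), if_pos h, h]
        ring
      · rw [if_pos (by omega), if_pos (by omega), if_neg (by omega)]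
        ring
    rw [sum_congr rfl h3, ← sum_filter, sum_const, ← Finset.powersetCard_eq_filter,
      card_powersetCard, nsmul_eq_mul]
    ring
  rw [hsplit, hfirst]
  -- the second sum
  by_cases hpk : (pk (Od A)).Nonempty
  · rw [alt_sum _ _ (by omega) hpk]
    have h2 : 2 * (pk (Od A)).card + 1 ≤ Fintype.card A / 2 := by
      have h3 : SI (pk (Od A)) ⊆ (hf (Od A)).erase 0 := by
        intro x hx
        obtain ⟨j, hj, hx⟩ := mem_SI.1 hx
        refine mem_erase.2 ⟨fun h => (part_pr.sy j).zero (h ▸ hx), mem_hf.2 ?_⟩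
        have := mem_pk.1 hj
        rcases (mem_pr _ _).1 hx with rfl | rfl
        · exact this
        · exact (Od A).neg_mem this
      have h4 : (SI (pk (Od A))).card = 2 * (pk (Od A)).card := by
        refine hcs _ (mem_powerset.2 fun j hj => mem_erase.2 ⟨?_, mem_univ _⟩)
        rintro rfl
        have h3 := mem_pk.1 hj
        unfold Od at h3
        rw [mem_ks, ← addOrderOf_dvd_iff_nsmul_eq_zero] at h3
        have h5 : Odd (addOrderOf j.1) := Odd.of_dvd_nat odd_compl h3
        have h4 : addOrderOf j.1 ∣ 2 := by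
          rw [addOrderOf_dvd_iff_nsmul_eq_zero, two_nsmul]
          nth_rewrite 1 [← hzz0]
          exact neg_add_cancel _
        rcases (Nat.dvd_prime Nat.prime_two).1 h4 with h6 | h6
        · exact ((mem_Rp _).1 j.2).1 (AddMonoid.addOrderOf_eq_one_iff.1 h6)
        · rw [h6] at h5
          exact absurd h5 (by decide)
      have h5 := card_le_card h3
      rw [h4, card_erase_of_mem (mem_hf.2 (Od A).zero_mem), hf_card, card_Od] at h5
      have h6 : ordCompl[2] (Fintype.card A) ≤ Fintype.card A / 2 := by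
        have h7 : ordProj[2] (Fintype.card A) * ordCompl[2] (Fintype.card A) = Fintype.card A :=
          Nat.ordProj_mul_ordCompl_eq_self _ _
        have h8 : 2 ∣ ordProj[2] (Fintype.card A) := by
          have h9 : (Fintype.card A).factorization 2 ≠ 0 :=
            (Nat.prime_two.factorization_pos_of_dvd Fintype.card_ne_zero
              (even_iff_two_dvd.1 heven)).ne'
          exact dvd_pow_self 2 h9
        obtain ⟨c, hc⟩ := h8
        have h9 : 0 < ordProj[2] (Fintype.card A) := Nat.pos_of_ne_zero (by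
          intro h
          rw [h, zero_mul] at h7
          exact Fintype.card_ne_zero h7.symm)
        rw [Nat.le_div_iff_mul_le (by norm_num)]
        have h10 : 2 ≤ ordProj[2] (Fintype.card A) := by omega
        calc ordCompl[2] (Fintype.card A) * 2 = 2 * ordCompl[2] (Fintype.card A) := mul_comm _ _
          _ ≤ ordProj[2] (Fintype.card A) * ordCompl[2] (Fintype.card A) :=
              Nat.mul_le_mul_right _ h10
          _ = Fintype.card A := h7
      have h7 : 0 < ordCompl[2] (Fintype.card A) := odd_compl.pos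
      omega
    have h3 : ((pk (Od A)).card - 1).choose t < s.card.choose t :=
      choose_lt (by omega) ht (by omega)
    have h4 : -((-1 : ℤ) ^ t * (s.card.choose t : ℤ)) -
        (-1) ^ (t + 1) * (((pk (Od A)).card - 1).choose (t + 1 - 1) : ℤ) =
        (-1) ^ (t + 1) * ((s.card.choose t : ℤ) - (((pk (Od A)).card - 1).choose t : ℤ)) := by
      rw [Nat.add_sub_cancel, pow_succ]
      ring
    rw [h4]
    refine mul_ne_zero (pow_ne_zero _ (by norm_num)) ?_
    have : (((pk (Od A)).card - 1).choose t : ℤ) < (s.card.choose t : ℤ) := by exact_mod_cast h3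
    linarith
  · rw [not_nonempty_iff_eq_empty] at hpk
    have h2 : (pk (Od A)).powerset.filter (fun I => t + 1 ≤ I.card) = ∅ := by
      rw [hpk, powerset_empty]
      ext I
      simp only [mem_filter, mem_singleton, notMem_empty, iff_false]
      rintro ⟨rfl, h⟩
      rw [card_empty] at h
      omega
    rw [h2, sum_empty, sub_zero]
    refine neg_ne_zero.2 (mul_ne_zero (pow_ne_zero _ (by norm_num)) ?_)
    have : 0 < s.card.choose t := Nat.choose_pos (by omega)
    exact_mod_cast this.ne'

end

/-! ### the case of odd degree and even components -/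

section

open Classical

theorem PV_comp {n : ℕ} {P : SimpleGraph (Fin n) → Prop}
    (hc : ∀ G : SimpleGraph (Fin n), P G → ∀ v, Even {w | G.Reachable v w}.ncard)
    {V : Type} (G : SimpleGraph V) (h : PV P V G) : ∀ v, Even {w | G.Reachable v w}.ncard := by
  obtain ⟨e, he⟩ := h
  intro v
  set φ := SimpleGraph.Iso.map e G with hφ
  have h1 := hc _ he (φ v)
  have h2 : {w | (G.map e.toEmbedding).Reachable (φ v) w} = φ '' {w | G.Reachable v w} := by
    ext w
    rw [Set.mem_image]
    constructor
    · intro h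
      refine ⟨φ.symm w, ?_, φ.apply_symm_apply w⟩
      have h3 : (G.map e.toEmbedding).Reachable (φ v) (φ (φ.symm w)) := by
        rw [φ.apply_symm_apply]
        exact h
      exact (φ.reachable_iff).1 h3
    · rintro ⟨x, hx, rfl⟩
      exact (φ.reachable_iff).2 hx
  rw [h2, Set.ncard_image_of_injective _ φ.injective] at h1
  exact h1

theorem coreB {n : ℕ} {P : SimpleGraph (Fin n) → Prop} (hn : Even n) (t : ℕ) (ht : 1 ≤ t)
    (htn : 2 * t + 1 < n)
    (hup : ∀ G : SimpleGraph (Fin n), P G → ∀ v, 2 * t + 1 ≤ (G.neighborSet v).ncard)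
    (h1 : ∀ G : SimpleGraph (Fin n), HF (2 * t + 1) G → P G)
    (hc : ∀ G : SimpleGraph (Fin n), P G → ∀ v, Even {w | G.Reachable v w}.ncard)
    (hP : GP n (n.choose 2 - 1) P) : False := by
  have : NeZero n := ⟨by omega⟩
  have hcard : Fintype.card (ZMod n) = n := ZMod.card n
  have heven : Even (Fintype.card (ZMod n)) := by rw [hcard]; exact hn
  refine sum_main (A := ZMod n) heven t ht (by
      rw [hcard]
      obtain ⟨r, hr⟩ := hn
      omega)
    (fun I => if PV P (ZMod n) (cay (SI I)) then 1 else 0) ?_ ?_ (rel_circ (by omega) hP)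
  · intro I hI
    refine if_neg fun h => ?_
    rcases hI with hI | hI
    · have h2 := PV_deg hup _ h 0
      rw [deg_cay] at h2
      omega
    · have h2 := PV_comp hc _ h 0
      rw [comp_card] at h2
      exact absurd (odd_of_le hI) (Nat.not_odd_iff_even.2 h2)
  · intro I h2 h3
    refine if_pos (PV_HF h1 (ZMod.finEquiv n).symm.toEquiv _ ?_)
    rw [gn_le] at h3
    push Not at h3
    obtain ⟨j, hj, hjO⟩ := h3
    obtain ⟨z, hz0, hzz, hz⟩ := exists_inv heven
    by_cases hzI : z ∈ SI I
    · refine HF_odd _ (SI_sy I) _ ⟨t, rfl⟩ h2 z hzI ?_ fun x hx hxx => ?_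
      · by_contra hodd
        rw [Nat.not_even_iff_odd] at hodd
        have h4 : addOrderOf z ∣ 2 := by
          rw [addOrderOf_dvd_iff_nsmul_eq_zero, two_nsmul]
          nth_rewrite 1 [← hzz]
          exact neg_add_cancel _
        rcases (Nat.dvd_prime Nat.prime_two).1 h4 with h6 | h6
        · exact hz0 (AddMonoid.addOrderOf_eq_one_iff.1 h6)
        · rw [h6] at hodd
          exact absurd hodd (by decide)
      · rcases hz x hxx with h | h
        · exact absurd (h ▸ hx) (SI_sy I).zero
        · exact h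
    · refine HF_odd _ (SI_sy I) _ ⟨t, rfl⟩ h2 j.1 (mem_SI.2 ⟨j, hj, self_mem_pr _⟩)
        (even_of_notMem hjO) fun x hx hxx => ?_
      rcases hz x hxx with h | h
      · exact absurd (h ▸ hx) (SI_sy I).zero
      · exact absurd (h ▸ hx) hzI

/-- perfect matchings -/
theorem coreC {n : ℕ} {P : SimpleGraph (Fin n) → Prop} (hn : Even n) (hn1 : 1 < n)
    (hup : ∀ G : SimpleGraph (Fin n), P G → ∀ v, 1 ≤ (G.neighborSet v).ncard)
    (h1 : ∀ G : SimpleGraph (Fin n), HF 1 G → P G)
    (hP : GP n (n.choose 2 - 1) P) : False := by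
  obtain ⟨k, hk⟩ := hn
  have hk2 : n = k * 2 := by omega
  have hch : 0 < n.choose 2 := Nat.choose_pos (by omega)
  have h2 : n.choose 2 ≤ n.choose 2 - 1 := by
    refine Pool.Agent.Y46.Kc.all_cases hP (k := k) (Q := 2) (by omega) Nat.prime_two.isPrimePow hk2
      (SimpleGraph.pathGraph 2) (Or.inl ⟨Nat.prime_two, rfl⟩) ?_ ?_
    · intro h
      have h3 := PV_deg hup _ h (⟨0, by omega⟩, 0)
      have h4 : (⊥ : SimpleGraph (Fin k × Fin 2)).neighborSet (⟨0, by omega⟩, 0) = ∅ := by
        ext w
        simp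
      rw [h4, Set.ncard_empty] at h3
      omega
    · have e : Fin k × Fin 2 ≃ Fin n := by
        rw [hk2]
        exact finProdFinEquiv
      refine PV_HF h1 e _ ⟨_, le_rfl, fun v => ?_⟩
      have h4 : (Pool.Agent.Y46.Kc.cop (Fin k) (SimpleGraph.pathGraph 2)).neighborSet v =
          {(v.1, v.2 + 1)} := by
        ext w
        rw [Set.mem_singleton_iff, SimpleGraph.mem_neighborSet]
        change (v.1 = w.1 ∧ (SimpleGraph.pathGraph 2).Adj v.2 w.2) ↔ _
        rw [SimpleGraph.pathGraph_adj]
        obtain ⟨v1, v2⟩ := v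
        obtain ⟨w1, w2⟩ := w
        rw [Prod.mk.injEq]
        fin_cases v2 <;> fin_cases w2 <;> simp [eq_comm]
      rw [h4, Set.ncard_singleton]
  omega

end

end Pool.Agent.Q6.KV
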